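import Pool.Agent.Helper87.NT.Thr2
import Pool.Agent.Helper53.LE.Energy3

/-!
MP_f5811f_co: graphs with pendant vertices spread over a core (sparse case).
-/

namespace Pool.Agent.Helper87.NT

open Matrix Finset Pool.Agent.Helper53.LE

/-- orthogonal projections with disjoint supports -/
lemma block_proj {V : Type*} [Fintype V] [DecidableEq V] {h : V → ℕ} {w : V → ℝ} {q : ℝ}
    (hq : q ≠ 0) (hs : ∀ i, w i ≠ 0 → ∑ l, (if h l = h i then w l * w l else 0) = q) :
    IsProj (of fun i j => if h i = h j then w i * w j / q else 0 : Matrix V V ℝ) := by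
  refine ⟨?_, ?_⟩
  · ext i j
    simp only [transpose_apply, of_apply]
    by_cases hij : h i = h j
    · rw [if_pos hij, if_pos hij.symm]; ring
    · rw [if_neg hij, if_neg (Ne.symm hij)]
  · ext i j
    rw [Matrix.mul_apply]
    simp only [of_apply]
    by_cases hij : h i = h j
    · rw [if_pos hij]
      have h1 : ∀ l, (if h i = h l then w i * w l / q else 0) *
          (if h l = h j then w l * w j / q else 0) =
          w i * w j / q ^ 2 * (if h l = h i then w l * w l else 0) := by
        intro l
        by_cases hl : h l = h i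
        · rw [if_pos hl.symm, if_pos (hl.trans hij), if_pos hl]
          field_simp
        · rw [if_neg (Ne.symm hl), if_neg hl]; ring
      simp only [h1, ← Finset.mul_sum]
      by_cases hw : w i = 0
      · rw [hw]; ring
      · rw [hs i hw]; field_simp
    · rw [if_neg hij]
      refine Finset.sum_eq_zero fun l _ => ?_
      by_cases hl : h i = h l
      · rw [if_neg (fun h2 => hij (hl.trans h2)), mul_zero]
      · rw [if_neg hl, zero_mul]

/-- the hub of a vertex: the first `N` vertices are their own hubs, the next `N a` vertices are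
distributed in blocks of `a` consecutive vertices, the others belong to the vertex `0` -/
def hub (N a i : ℕ) : ℕ := if i < N then i else if i < N * (a + 1) then (i - N) / a else 0

lemma hub_lt {N a i : ℕ} (hN : 0 < N) : hub N a i < N := by
  unfold hub
  split_ifs with h1 h2
  · exact h1
  · rw [Nat.div_lt_iff_lt_mul]
    · have : N * (a + 1) = N * a + N := by ring
      omega
    · rcases Nat.eq_zero_or_pos a with h | h
      · subst h; simp at h2; omega
      · exact h
  · exact hN

lemma hub_of_lt {N a i : ℕ} (h : i < N) : hub N a i = i := if_pos h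

/-- Energy of a graph in which all vertices from `N` on are pendant and attached to their hub. -/
theorem hub_energy {n m N a : ℕ} (hN : 0 < N) (ha : 0 < a) (hNa : N * (a + 1) ≤ n)
    (hNa2 : n ≤ N * (a + 2)) {G : SimpleGraph (Fin n)} (hm : G.edgeSet.ncard = m)
    (hG : ∀ i j : Fin n, N ≤ j.val → (adjR G i j = if i.val = hub N a j.val then 1 else 0))
    (hGN : (2 * m : ℝ) ≤ N * (N - 1) + 2 * (n - N)) :
    2 * ((2 * m : ℝ) - (n - N) + N * a / (N + a) - 2 * m / n * N) ≤ laplacianEnergy G := by
  classical
  have hNn : N ≤ n := by nlinarith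
  have hn : 0 < n := by omega
  have hA := isGr_adjR G
  set A := adjR G with hAd
  have hN1 : (1 : ℝ) ≤ N := by exact_mod_cast hN
  have ha1 : (1 : ℝ) ≤ a := by exact_mod_cast ha
  have hnR : (0 : ℝ) < n := by exact_mod_cast hn
  set τ : ℝ := 1 / ((N : ℝ) + a) with hτ
  have hτ0 : 0 < τ := by positivity
  have haτ : (a : ℝ) * τ ≤ 1 := by
    rw [hτ, mul_one_div, div_le_one (by positivity)]; linarith
  set q : ℝ := 1 + a * τ ^ 2 with hq
  have hq0 : 0 < q := by positivity
  set w : Fin n → ℝ := fun i => ivl 0 N i - τ * ivl N (N * (a + 1)) i with hw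
  have hNle : N ≤ N * (a + 1) := Nat.le_mul_of_pos_right N (by omega)
  -- values of w
  have w1 : ∀ i : Fin n, i.val < N → w i = 1 := by
    intro i hi
    simp only [hw]
    rw [ivl_pos ⟨Nat.zero_le _, hi⟩, ivl_neg (by omega)]; ring
  have w2 : ∀ i : Fin n, N ≤ i.val → i.val < N * (a + 1) → w i = -τ := by
    intro i hi hi2
    simp only [hw]
    rw [ivl_neg (by omega), ivl_pos ⟨hi, hi2⟩]; ring
  have w3 : ∀ i : Fin n, N * (a + 1) ≤ i.val → w i = 0 := by
    intro i hi
    simp only [hw]
    rw [ivl_neg (by omega), ivl_neg (by omega)]; ring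
  set h : Fin n → ℕ := fun i => hub N a i.val with hh
  -- the block sums
  have hblock : ∀ i, w i ≠ 0 → ∑ l, (if h l = h i then w l * w l else 0) = q := by
    intro i _
    set v := h i with hv
    have hvN : v < N := hub_lt hN
    have hva : N + v * a + a ≤ N * (a + 1) := by
      have : N * (a + 1) = N + N * a := by ring
      rw [this]
      have : (v + 1) * a ≤ N * a := Nat.mul_le_mul_right a hvN
      nlinarith
    have h1 : ∀ l : Fin n, (if h l = v then w l * w l else 0) =
        ivl v (v + 1) l + τ ^ 2 * ivl (N + v * a) (N + v * a + a) l := by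
      intro l
      by_cases hl1 : l.val < N
      · have hhl : h l = l.val := by simp only [hh, hub, if_pos hl1]
        rw [hhl, w1 l hl1]
        have h2 : ivl (N + v * a) (N + v * a + a) l = 0 := ivl_neg (by
          intro h3
          have := Nat.zero_le (v * a)
          omega)
        rw [h2]
        by_cases hlv : l.val = v
        · rw [if_pos hlv, ivl_pos (by omega)]; ring
        · rw [if_neg hlv, ivl_neg (by omega)]; ring
      · have h2 : ivl v (v + 1) l = 0 := ivl_neg (by omega)
        rw [h2, zero_add]
        by_cases hl2 : l.val < N * (a + 1)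
        · have hhl : h l = (l.val - N) / a := by simp only [hh, hub, if_neg hl1, if_pos hl2]
          rw [hhl, w2 l (by omega) hl2]
          by_cases hlv : (l.val - N) / a = v
          · have h3 := (Nat.div_eq_iff ha).mp hlv
            have h4 : N + v * a ≤ l.val ∧ l.val < N + v * a + a := by
              obtain ⟨h5, h6⟩ := h3
              constructor
              · omega
              · omega
            rw [if_pos hlv, ivl_pos h4]; ring
          · rw [if_neg hlv, ivl_neg]
            · ring
            · rintro ⟨h3, h4⟩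
              apply hlv
              rw [Nat.div_eq_iff ha]
              constructor <;> omega
        · rw [w3 l (by omega), ivl_neg (by omega)]
          simp
    simp only [h1, Finset.sum_add_distrib, ← Finset.mul_sum]
    rw [sum_ivl (by omega) (by omega), sum_ivl (by omega) (by omega)]
    push_cast
    rw [hq]; ring
  have hQ := block_proj hq0.ne' hblock
  set Q : Matrix (Fin n) (Fin n) ℝ := of fun i j => if h i = h j then w i * w j / q else 0 with hQd
  -- total weights
  have hww : ∀ i, w i * w i = ivl 0 N i + τ ^ 2 * ivl N (N * (a + 1)) i := by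
    intro i
    by_cases hi1 : i.val < N
    · rw [w1 i hi1, ivl_pos (by omega), ivl_neg (by omega)]; ring
    · by_cases hi2 : i.val < N * (a + 1)
      · rw [w2 i (by omega) hi2, ivl_neg (by omega), ivl_pos (by omega)]; ring
      · rw [w3 i (by omega), ivl_neg (by omega), ivl_neg (by omega)]; ring
  have hs1 : ∑ i : Fin n, ivl 0 N i = (N : ℝ) := by
    rw [sum_ivl (Nat.zero_le _) hNn]; push_cast; ring
  have hs2 : ∑ i : Fin n, ivl N (N * (a + 1)) i = (N : ℝ) * a := by
    rw [sum_ivl hNle hNa]; push_cast; ring
  have hs3 : ∑ i : Fin n, ivl N n i = (n : ℝ) - N := by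
    rw [sum_ivl hNn le_rfl]
  have htr : Q.trace = N := by
    rw [Matrix.trace]
    simp only [diag_apply, hQd, of_apply, if_true, hww]
    rw [← Finset.sum_div, Finset.sum_add_distrib, ← Finset.mul_sum, hs1, hs2, hq]
    field_simp
  -- degrees
  have hdeg : ∀ j : Fin n, N ≤ j.val → dg A j = 1 := by
    intro j hj
    unfold dg
    have hlt : hub N a j.val < n := lt_of_lt_of_le (hub_lt hN) hNn
    have h1 : ∀ i : Fin n, A j i = if i = ⟨hub N a j.val, hlt⟩ then 1 else 0 := by
      intro i
      rw [hA.symm, hG i j hj]
      by_cases hi : i.val = hub N a j.val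
      · rw [if_pos hi, if_pos (Fin.ext hi)]
      · rw [if_neg hi, if_neg (fun h2 => hi (by rw [h2]))]
    simp only [h1, Finset.sum_ite_eq', Finset.mem_univ, if_true]
  have hsumd : ∑ i, dg A i = 2 * m := by
    have := sum_adjR G
    rw [hm] at this
    exact this
  have hd1 : ∑ i, dg A i * ivl 0 N i = 2 * m - (n - N) := by
    have h1 : ∀ i : Fin n, dg A i * ivl 0 N i = dg A i - ivl N n i := by
      intro i
      by_cases hi : i.val < N
      · rw [ivl_pos (by omega), ivl_neg (by omega)]; ring
      · rw [ivl_neg (by omega), ivl_pos ⟨by omega, i.2⟩, hdeg i (by omega)]; ring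
    simp only [h1, Finset.sum_sub_distrib, hsumd, hs3]
  have hd2 : ∑ i, dg A i * ivl N (N * (a + 1)) i = N * a := by
    have h1 : ∀ i : Fin n, dg A i * ivl N (N * (a + 1)) i = ivl N (N * (a + 1)) i := by
      intro i
      by_cases hi : N ≤ i.val ∧ i.val < N * (a + 1)
      · rw [ivl_pos hi, hdeg i hi.1]; ring
      · rw [ivl_neg hi]; ring
    simp only [h1, hs2]
  have hdiag : ∑ i, dg A i * Q i i = (2 * m - (n - N) + τ ^ 2 * (N * a)) / q := by
    have h1 : ∀ i, dg A i * Q i i =
        (dg A i * ivl 0 N i + τ ^ 2 * (dg A i * ivl N (N * (a + 1)) i)) / q := by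
      intro i
      simp only [hQd, of_apply, if_true, hww]; ring
    simp only [h1]
    rw [← Finset.sum_div, Finset.sum_add_distrib, ← Finset.mul_sum, hd1, hd2]
  -- off diagonal part
  have hoff1 : ∑ i, ∑ j, (ivl N n j) * (A i j * Q i j) = - (τ * (N * a)) / q := by
    rw [Finset.sum_comm]
    have h1 : ∀ j : Fin n, ∑ i, ivl N n j * (A i j * Q i j) =
        - (τ / q) * ivl N (N * (a + 1)) j := by
      intro j
      by_cases hj : N ≤ j.val
      · have hlt : hub N a j.val < n := lt_of_lt_of_le (hub_lt hN) hNn
        rw [Finset.sum_eq_single (⟨hub N a j.val, hlt⟩ : Fin n)]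
        · rw [hG _ j hj, if_pos rfl, ivl_pos ⟨hj, j.2⟩]
          have h3 : h ⟨hub N a j.val, hlt⟩ = h j := hub_of_lt (hub_lt hN)
          simp only [hQd, of_apply, if_pos h3]
          rw [w1 _ (hub_lt hN)]
          by_cases hj2 : j.val < N * (a + 1)
          · rw [w2 j hj hj2, ivl_pos ⟨hj, hj2⟩]; ring
          · rw [w3 j (by omega), ivl_neg (by omega)]; ring
        · intro i _ hi
          rw [hG i j hj, if_neg (fun h2 => hi (Fin.ext h2))]; ring
        · simp
      · rw [ivl_neg (x := N) (y := N * (a + 1)) (by omega)]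
        refine (Finset.sum_eq_zero fun i _ => ?_).trans (by ring)
        rw [ivl_neg (by omega)]; ring
    simp only [h1, ← Finset.mul_sum, hs2]; ring
  have hoff : ∑ i, ∑ j, A i j * Q i j = - (2 * τ * (N * a)) / q := by
    have h1 : ∀ i j : Fin n, A i j * Q i j =
        ivl N n j * (A i j * Q i j) + ivl N n i * (A j i * Q j i) := by
      intro i j
      rw [hA.symm j i, hQ.apply_symm j i]
      by_cases hi : N ≤ i.val
      · by_cases hj : N ≤ j.val
        · have : A i j = 0 := by
            rw [hG i j hj, if_neg]
            intro h2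
            have := hub_lt (a := a) (i := j.val) hN
            omega
          rw [this]; ring
        · rw [ivl_neg (i := j) (by omega), ivl_pos (i := i) ⟨hi, i.2⟩]; ring
      · by_cases hj : N ≤ j.val
        · rw [ivl_pos (i := j) ⟨hj, j.2⟩, ivl_neg (i := i) (by omega)]; ring
        · rw [ivl_neg (i := j) (by omega), ivl_neg (i := i) (by omega)]
          by_cases hij : i = j
          · subst hij; rw [hA.diag]; ring
          · have h3 : h i ≠ h j := by
              simp only [hh, hub]
              rw [if_pos (by omega), if_pos (by omega)]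
              exact fun h4 => hij (Fin.ext h4)
            have : Q i j = 0 := by simp only [hQd, of_apply, if_neg h3]
            rw [this]; ring
    have h2 : ∑ i, ∑ j, A i j * Q i j = ∑ i, ∑ j, ivl N n j * (A i j * Q i j) +
        ∑ i, ∑ j, ivl N n i * (A j i * Q j i) := by
      rw [← Finset.sum_add_distrib]
      refine Finset.sum_congr rfl fun i _ => ?_
      rw [← Finset.sum_add_distrib]
      exact Finset.sum_congr rfl fun j _ => h1 i j
    have h3 : ∑ i, ∑ j, ivl N n i * (A j i * Q j i) = ∑ i, ∑ j, ivl N n j * (A i j * Q i j) :=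
      Finset.sum_comm
    rw [h2, h3, hoff1]; ring
  have htrace : (lap A * Q).trace =
      (2 * m - (n - N) + τ ^ 2 * (N * a)) / q + 2 * τ * (N * a) / q := by
    rw [trace_lap_mul hA hQ, hdiag, hoff]; ring
  have hge := energy_ge hn hm hQ
  rw [← hAd, htr, htrace] at hge
  refine le_trans ?_ hge
  have hS : (2 * (m : ℝ) - (n - N)) * τ ≤ N := by
    have h1 : (n : ℝ) ≤ N * (a + 2) := by exact_mod_cast hNa2
    rw [hτ, mul_one_div, div_le_iff₀ (by positivity)]
    nlinarith
  have hkey : 2 * (m : ℝ) - (n - N) + N * a / (N + a) ≤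
      (2 * m - (n - N) + τ ^ 2 * (N * a)) / q + 2 * τ * (N * a) / q := by
    have e1 : (N : ℝ) * a / (N + a) = N * a * τ := by rw [hτ]; ring
    rw [e1, ← add_div, le_div_iff₀ hq0, hq]
    set S : ℝ := 2 * (m : ℝ) - (n - N) with hSd
    have hNa0 : 0 ≤ (N : ℝ) * a := by positivity
    have e3 : S + τ ^ 2 * (N * a) + 2 * τ * (N * a) - (S + N * a * τ) * (1 + a * τ ^ 2) =
        a * τ * (N - S * τ) + N * a * τ * τ * (1 - a * τ) := by ring
    have e4 : 0 ≤ a * τ * (N - S * τ) := mul_nonneg (by positivity) (by linarith)
    have e5 : 0 ≤ N * a * τ * τ * (1 - a * τ) := mul_nonneg (by positivity) (by linarith)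
    linarith
  linarith

end Pool.Agent.Helper87.NT
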