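import Pool.Agent.Helper87.NT.Thr2
import Pool.Agent.Helper53.LE.Energy3

/-!
MP_f5811f_co: a graph with larger energy than all threshold graphs (dense case).
-/

namespace Pool.Agent.Helper87.NT

open Matrix Finset Pool.Agent.Helper53.LE

/-- A complete graph on the vertices `0, ..., K`, the vertex `K + 1` joined to `0, ..., r` and to
all the vertices `K + 2, ..., n - 1`, which are pendant. -/
def gs (n K r : ℕ) : SimpleGraph (Fin n) where
  Adj i j := i ≠ j ∧ ((i.val ≤ K ∧ j.val ≤ K) ∨ (i.val = K + 1 ∧ j.val ≤ r) ∨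
    (j.val = K + 1 ∧ i.val ≤ r) ∨ (i.val = K + 1 ∧ K + 2 ≤ j.val) ∨
    (j.val = K + 1 ∧ K + 2 ≤ i.val))
  symm := ⟨fun i j h => ⟨h.1.symm, by
    rcases h.2 with h | h | h | h | h
    · exact Or.inl ⟨h.2, h.1⟩
    · exact Or.inr (Or.inr (Or.inl h))
    · exact Or.inr (Or.inl h)
    · exact Or.inr (Or.inr (Or.inr (Or.inr h)))
    · exact Or.inr (Or.inr (Or.inr (Or.inl h)))⟩⟩
  loopless := ⟨fun i h => h.1 rfl⟩

lemma gs_connected {n K r : ℕ} (hn : 0 < n) : (gs n K r).Connected := by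
  haveI : NeZero n := ⟨hn.ne'⟩
  rw [SimpleGraph.connected_iff_exists_forall_reachable]
  refine ⟨⟨0, hn⟩, ?_⟩
  have h1 : ∀ i : Fin n, i.val ≤ K + 1 → (gs n K r).Reachable ⟨0, hn⟩ i := by
    intro i hi
    by_cases h0 : i.val = 0
    · have : i = ⟨0, hn⟩ := Fin.ext h0
      rw [this]
    · apply SimpleGraph.Adj.reachable
      refine ⟨fun h => h0 (by rw [← h]), ?_⟩
      by_cases hK : i.val = K + 1
      · right; right; left; exact ⟨hK, Nat.zero_le _⟩
      · left; exact ⟨Nat.zero_le _, by omega⟩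
  intro i
  by_cases hi : i.val ≤ K + 1
  · exact h1 i hi
  · have hv : K + 1 < n := by have := i.2; omega
    refine (h1 ⟨K + 1, hv⟩ le_rfl).trans (SimpleGraph.Adj.reachable ?_)
    refine ⟨fun h => ?_, ?_⟩
    · rw [← h] at hi; exact hi le_rfl
    · right; right; right; left; exact ⟨rfl, by omega⟩

section

variable {n K r : ℕ}

lemma gs_cat (hr : r < K) (i : Fin n) :
    (i.val ≤ r ∧ ivl 0 (K + 1) i = 1 ∧ ivl 0 (r + 1) i = 1 ∧ ivl (K + 1) (K + 2) i = 0 ∧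
      ivl (K + 2) n i = 0) ∨
    ((r < i.val ∧ i.val ≤ K) ∧ ivl 0 (K + 1) i = 1 ∧ ivl 0 (r + 1) i = 0 ∧
      ivl (K + 1) (K + 2) i = 0 ∧ ivl (K + 2) n i = 0) ∨
    (i.val = K + 1 ∧ ivl 0 (K + 1) i = 0 ∧ ivl 0 (r + 1) i = 0 ∧ ivl (K + 1) (K + 2) i = 1 ∧
      ivl (K + 2) n i = 0) ∨
    (K + 2 ≤ i.val ∧ ivl 0 (K + 1) i = 0 ∧ ivl 0 (r + 1) i = 0 ∧ ivl (K + 1) (K + 2) i = 0 ∧
      ivl (K + 2) n i = 1) := by
  have hi := i.2
  unfold ivl
  by_cases h1 : i.val ≤ r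
  · left
    exact ⟨h1, if_pos (by omega), if_pos (by omega), if_neg (by omega), if_neg (by omega)⟩
  · by_cases h2 : i.val ≤ K
    · right; left
      exact ⟨⟨by omega, h2⟩, if_pos (by omega), if_neg (by omega), if_neg (by omega),
        if_neg (by omega)⟩
    · by_cases h3 : i.val = K + 1
      · right; right; left
        exact ⟨h3, if_neg (by omega), if_neg (by omega), if_pos (by omega), if_neg (by omega)⟩
      · right; right; right
        exact ⟨by omega, if_neg (by omega), if_neg (by omega), if_neg (by omega),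
          if_pos (by omega)⟩

lemma adjR_gs (hr : r < K) (i j : Fin n) :
    adjR (gs n K r) i j = (if i = j then 0 else ivl 0 (K + 1) i * ivl 0 (K + 1) j)
      + (ivl (K + 1) (K + 2) i * ivl 0 (r + 1) j + ivl 0 (r + 1) i * ivl (K + 1) (K + 2) j)
      + (ivl (K + 1) (K + 2) i * ivl (K + 2) n j + ivl (K + 2) n i * ivl (K + 1) (K + 2) j) := by
  classical
  rw [adjR_apply]
  by_cases hij : i = j
  · subst hij
    rw [if_neg (fun h => h.1 rfl), if_pos rfl]
    rcases gs_cat hr i with ⟨-, h1, h2, h3, h4⟩ | ⟨-, h1, h2, h3, h4⟩ | ⟨-, h1, h2, h3, h4⟩ |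
      ⟨-, h1, h2, h3, h4⟩ <;> rw [h2, h3, h4] <;> norm_num
  · rw [if_neg hij]
    rcases gs_cat hr i with ⟨hi, h1, h2, h3, h4⟩ | ⟨hi, h1, h2, h3, h4⟩ | ⟨hi, h1, h2, h3, h4⟩ |
      ⟨hi, h1, h2, h3, h4⟩ <;>
    rcases gs_cat hr j with ⟨hj, g1, g2, g3, g4⟩ | ⟨hj, g1, g2, g3, g4⟩ | ⟨hj, g1, g2, g3, g4⟩ |
      ⟨hj, g1, g2, g3, g4⟩ <;>
    rw [h1, h2, h3, h4, g1, g2, g3, g4] <;>
    first
    | exact absurd (Fin.ext (by omega)) hij
    | (rw [if_pos (show (gs n K r).Adj i j from ⟨hij, by omega⟩)]; norm_num)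
    | (rw [if_neg (show ¬ (gs n K r).Adj i j from fun h => by
        have h5 := h.2
        have h6 : i.val ≠ j.val := fun h => hij (Fin.ext h)
        omega)]; norm_num)

lemma gs_sum (hr : r < K) (hK : K + 2 ≤ n) : ∑ i, ∑ j, adjR (gs n K r) i j =
    (K : ℝ) * (K + 1) + 2 * (r + 1) + 2 * (n - K - 2) := by
  have hκ : ∑ i : Fin n, ivl 0 (K + 1) i = (K : ℝ) + 1 := by
    rw [sum_ivl (Nat.zero_le _) (by omega)]; push_cast; ring
  have hρ : ∑ i : Fin n, ivl 0 (r + 1) i = (r : ℝ) + 1 := by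
    rw [sum_ivl (Nat.zero_le _) (by omega)]; push_cast; ring
  have hv : ∑ i : Fin n, ivl (K + 1) (K + 2) i = (1 : ℝ) := by
    rw [sum_ivl (by omega) (by omega)]; push_cast; ring
  have hπ : ∑ i : Fin n, ivl (K + 2) n i = (n : ℝ) - K - 2 := by
    rw [sum_ivl hK le_rfl]; push_cast; ring
  have h1 : ∀ i j : Fin n, adjR (gs n K r) i j =
      ivl 0 (K + 1) i * ivl 0 (K + 1) j - (if i = j then ivl 0 (K + 1) i else 0)
      + (ivl (K + 1) (K + 2) i * ivl 0 (r + 1) j + ivl 0 (r + 1) i * ivl (K + 1) (K + 2) j)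
      + (ivl (K + 1) (K + 2) i * ivl (K + 2) n j + ivl (K + 2) n i * ivl (K + 1) (K + 2) j) := by
    intro i j
    rw [adjR_gs hr]
    by_cases hij : i = j
    · subst hij
      rw [if_pos rfl, if_pos rfl]
      rcases gs_cat hr i with ⟨-, h1, -⟩ | ⟨-, h1, -⟩ | ⟨-, h1, -⟩ | ⟨-, h1, -⟩ <;> rw [h1] <;> ring
    · rw [if_neg hij, if_neg hij]; ring
  simp only [h1, Finset.sum_add_distrib, Finset.sum_sub_distrib, sum_sum_mul, hκ, hρ, hv, hπ]
  have h2 : ∑ i : Fin n, ∑ j : Fin n, (if i = j then ivl 0 (K + 1) i else 0) = (K : ℝ) + 1 := by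
    rw [← hκ]
    refine Finset.sum_congr rfl fun i _ => ?_
    simp
  rw [h2]; ring

lemma gs_ncard {m : ℕ} (hr : r < K) (hK : K + 2 ≤ n) (hm : m + K + 1 = (K + 1).choose 2 + n + r) :
    (gs n K r).edgeSet.ncard = m := by
  have h1 := sum_adjR (gs n K r)
  rw [gs_sum hr hK] at h1
  have h2 : ((m : ℝ) + K + 1) = (((K + 1).choose 2 : ℕ) : ℝ) + n + r := by exact_mod_cast hm
  rw [Nat.cast_choose_two] at h2
  push_cast at h2
  have h3 : ((gs n K r).edgeSet.ncard : ℝ) = m := by linarith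
  exact_mod_cast h3

/-- the energy of `gs` -/
theorem gs_energy {m : ℕ} (hr : r < K) (hK : K + 2 < n)
    (hm : m + K + 1 = (K + 1).choose 2 + n + r) :
    2 * ((m : ℝ) + (K : ℝ) * (K + 1) / 2 - 2 * m / n * K + ((r : ℝ) + 1 - 2 * m / n
      + (K - r) * (n - K - 2) / ((K + 1) * (n - 1)))) ≤ laplacianEnergy (gs n K r) := by
  classical
  have hn0 : 0 < n := by omega
  have hmc := gs_ncard hr hK.le hm
  have hA := isGr_adjR (gs n K r)
  set A := adjR (gs n K r) with hAd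
  have hKn : (K : ℝ) + 2 < n := by exact_mod_cast hK
  have hK0 : (0 : ℝ) ≤ K := Nat.cast_nonneg K
  have hn1 : (0 : ℝ) < n := by linarith
  set p : ℝ := (n : ℝ) - K - 2 with hp
  have hp0 : 0 < p := by rw [hp]; linarith
  have hκ : ∑ i : Fin n, ivl 0 (K + 1) i = (K : ℝ) + 1 := by
    rw [sum_ivl (Nat.zero_le _) (by omega)]; push_cast; ring
  have hρ : ∑ i : Fin n, ivl 0 (r + 1) i = (r : ℝ) + 1 := by
    rw [sum_ivl (Nat.zero_le _) (by omega)]; push_cast; ring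
  have hv : ∑ i : Fin n, ivl (K + 1) (K + 2) i = (1 : ℝ) := by
    rw [sum_ivl (by omega) (by omega)]; push_cast; ring
  have hπ : ∑ i : Fin n, ivl (K + 2) n i = p := by
    rw [sum_ivl hK.le le_rfl, hp]; push_cast; ring
  set π : Fin n → ℝ := ivl (K + 2) n with hπd
  set κ : Fin n → ℝ := ivl 0 (K + 1) with hκd
  set ρ : Fin n → ℝ := ivl 0 (r + 1) with hρd
  set v : Fin n → ℝ := ivl (K + 1) (K + 2) with hvd
  have hcat : ∀ i : Fin n, (κ i = 1 ∧ ρ i = 1 ∧ v i = 0 ∧ π i = 0) ∨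
      (κ i = 1 ∧ ρ i = 0 ∧ v i = 0 ∧ π i = 0) ∨ (κ i = 0 ∧ ρ i = 0 ∧ v i = 1 ∧ π i = 0) ∨
      (κ i = 0 ∧ ρ i = 0 ∧ v i = 0 ∧ π i = 1) := by
    intro i
    rcases gs_cat hr i with ⟨-, h⟩ | ⟨-, h⟩ | ⟨-, h⟩ | ⟨-, h⟩
    · exact Or.inl h
    · exact Or.inr (Or.inl h)
    · exact Or.inr (Or.inr (Or.inl h))
    · exact Or.inr (Or.inr (Or.inr h))
  have hAij : ∀ i j, A i j = (if i = j then 0 else κ i * κ j) + (v i * ρ j + ρ i * v j)
      + (v i * π j + π i * v j) := fun i j => adjR_gs hr i j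
  have hππ : ∀ i, π i * π i = π i := by
    intro i
    rcases hcat i with ⟨-, -, -, h⟩ | ⟨-, -, -, h⟩ | ⟨-, -, -, h⟩ | ⟨-, -, -, h⟩ <;>
      rw [h] <;> norm_num
  have hsumA : ∑ i, ∑ j, A i j = 2 * m := by rw [hAd, sum_adjR, hmc]
  -- the projection
  have hcard : ((Fintype.card (Fin n) : ℕ) : ℝ) = n := by rw [Fintype.card_fin]
  have hpr1 := pr1_proj hππ hp0.ne' hπ
  have hpr1J := pr1_J hp0.ne' hπ
  have hQ0 := compl_proj hpr1 hpr1J (by rw [hcard]; exact hn1.ne')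
  rw [hcard] at hQ0
  set Q0 : Matrix (Fin n) (Fin n) ℝ := 1 - (1 / (n : ℝ)) • JJ (Fin n) - pr1 π p with hQ0d
  set f : Fin n → ℝ := fun i => p * κ i - (K + 1) * π i with hf
  set q0 : ℝ := (K + 1) * p * (n - 1) with hq0
  have hq0pos : 0 < q0 := by
    rw [hq0]; apply mul_pos (mul_pos (by linarith) hp0); linarith
  have hff : ∑ i, f i * f i = q0 := by
    have h1 : ∀ i, f i * f i = p ^ 2 * κ i + (K + 1) ^ 2 * π i := by
      intro i
      rcases hcat i with ⟨h1, -, -, h⟩ | ⟨h1, -, -, h⟩ | ⟨h1, -, -, h⟩ | ⟨h1, -, -, h⟩ <;>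
        simp only [hf, h1, h] <;> ring
    simp only [h1, Finset.sum_add_distrib, ← Finset.mul_sum, hκ, hπ]
    rw [hq0, hp]; ring
  have hf0 : ∑ i, f i = 0 := by
    simp only [hf, Finset.sum_sub_distrib, ← Finset.mul_sum, hκ, hπ]; ring
  have hπf : ∑ i, π i * f i = -((K + 1) * p) := by
    have h1 : ∀ i, π i * f i = -(K + 1) * π i := by
      intro i
      rcases hcat i with ⟨h1, -, -, h⟩ | ⟨h1, -, -, h⟩ | ⟨h1, -, -, h⟩ | ⟨h1, -, -, h⟩ <;>
        simp only [hf, h1, h] <;> ring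
    simp only [h1, ← Finset.mul_sum, hπ]; ring
  have hQf : ∀ i, ∑ j, Q0 i j * f j = f i := by
    intro i
    have h1 : ∀ j, Q0 i j * f j = (if i = j then f j else 0) - (1 / (n : ℝ)) * f j
        - ((if i = j then π i * f j else 0) - π i / p * (π j * f j)) := by
      intro j
      rw [hQ0d]
      unfold pr1
      simp only [Matrix.sub_apply, Matrix.smul_apply, JJ, of_apply, smul_eq_mul, mul_one,
        Matrix.one_apply, diagonal_apply]
      split_ifs <;> ring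
    simp only [h1, Finset.sum_sub_distrib, ← Finset.mul_sum, hf0, hπf, Finset.sum_ite_eq,
      Finset.mem_univ, if_true]
    have h2 : π i * f i = -(K + 1) * π i := by
      rcases hcat i with ⟨h1, -, -, h⟩ | ⟨h1, -, -, h⟩ | ⟨h1, -, -, h⟩ | ⟨h1, -, -, h⟩ <;>
        simp only [hf, h1, h] <;> ring
    rw [h2]
    field_simp
    ring
  have hQ := pr2_proj hQ0 hq0pos.ne' hff hQf
  -- traces
  have htJ : (JJ (Fin n)).trace = n := by simp [JJ, Matrix.trace]
  have htr0 : Q0.trace = K + 2 := by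
    rw [hQ0d, trace_sub, trace_sub, trace_smul, htJ, trace_one, smul_eq_mul,
      trace_pr1 hππ hp0.ne' hπ, hcard, hp]
    field_simp
    ring
  have htr : (pr2 Q0 f q0).trace = K + 1 := by
    rw [trace_pr2 hq0pos.ne' hff, htr0]; ring
  -- the trace of the Laplacian on Q0
  have hπA : ∑ i, ∑ j, A i j * π i = p := by
    have h1 : ∀ i j, A i j * π i = π i * v j := by
      intro i j
      rw [hAij]
      rcases hcat i with ⟨h1, h2, h3, h4⟩ | ⟨h1, h2, h3, h4⟩ | ⟨h1, h2, h3, h4⟩ |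
        ⟨h1, h2, h3, h4⟩ <;> rw [h1, h2, h3, h4] <;> split_ifs <;> ring
    simp only [h1, sum_sum_mul, hπ, hv, mul_one]
  have hπA' : ∑ i, ∑ j, A i j * π j = p := by
    rw [Finset.sum_comm, ← hπA]
    exact Finset.sum_congr rfl fun i _ => Finset.sum_congr rfl fun j _ => by rw [hA.symm]
  have hL0 : (lap A * Q0).trace = 2 * m - (p - 1) := by
    have h1 := trace_lap_mul' hA hQ0
    have h2 : ∀ i j, A i j * wt Q0 i j = 2 * A i j - (1 - 1 / p) * (A i j * π i)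
        - (1 - 1 / p) * (A i j * π j) := by
      intro i j
      by_cases hij : i = j
      · subst hij; rw [hA.diag]; ring
      · have hAππ : A i j * (π i * π j) = 0 := by
          rw [hAij, if_neg hij]
          rcases hcat i with ⟨h1, h2, h3, h4⟩ | ⟨h1, h2, h3, h4⟩ | ⟨h1, h2, h3, h4⟩ |
            ⟨h1, h2, h3, h4⟩ <;>
          rcases hcat j with ⟨g1, g2, g3, g4⟩ | ⟨g1, g2, g3, g4⟩ | ⟨g1, g2, g3, g4⟩ |
            ⟨g1, g2, g3, g4⟩ <;> rw [h1, h2, h3, h4, g1, g2, g3, g4] <;> ring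
        rw [hQ0d]
        unfold wt pr1
        simp only [Matrix.sub_apply, Matrix.smul_apply, JJ, of_apply, smul_eq_mul, mul_one,
          one_apply_eq, one_apply_ne hij, diagonal_apply_eq, diagonal_apply_ne _ hij, hππ]
        have e1 : A i j * (1 - 1 / (n:ℝ) - (π i - π i / p) + (1 - 1 / (n:ℝ) - (π j - π j / p))
            - 2 * (0 - 1 / (n:ℝ) - (0 - π i * π j / p))) =
            2 * A i j - (1 - 1 / p) * (A i j * π i) - (1 - 1 / p) * (A i j * π j)
              - 2 * (A i j * (π i * π j)) / p := by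
          field_simp
          ring
        rw [e1, hAππ]; ring
    simp only [h2, Finset.sum_sub_distrib, ← Finset.mul_sum, hπA, hπA', hsumA] at h1
    have h3 : (1 - 1 / p) * p = p - 1 := by field_simp
    rw [h3] at h1
    linarith
  have hLf : ∑ i, ∑ j, A i j * (f i - f j) ^ 2 = 2 * ((r + 1) * p ^ 2 + p * (K + 1) ^ 2) := by
    have h1 : ∀ i j, A i j * (f i - f j) ^ 2 = p ^ 2 * (v i * ρ j + ρ i * v j)
        + (K + 1) ^ 2 * (v i * π j + π i * v j) := by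
      intro i j
      rw [hAij]
      rcases hcat i with ⟨h1, h2, h3, h4⟩ | ⟨h1, h2, h3, h4⟩ | ⟨h1, h2, h3, h4⟩ |
        ⟨h1, h2, h3, h4⟩ <;>
      rcases hcat j with ⟨g1, g2, g3, g4⟩ | ⟨g1, g2, g3, g4⟩ | ⟨g1, g2, g3, g4⟩ |
        ⟨g1, g2, g3, g4⟩ <;> simp only [hf, h1, h2, h3, h4, g1, g2, g3, g4] <;>
      split_ifs <;> ring
    simp only [h1]
    have s1 := sum_sum_mul v ρ
    have s2 := sum_sum_mul ρ v
    have s3 := sum_sum_mul v π
    have s4 := sum_sum_mul π v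
    rw [hv, hρ] at s1
    rw [hv, hρ] at s2
    rw [hv, hπ] at s3
    rw [hv, hπ] at s4
    have e1 : ∑ i, ∑ j, (p ^ 2 * (v i * ρ j + ρ i * v j)
        + (K + 1) ^ 2 * (v i * π j + π i * v j)) =
        p ^ 2 * (∑ i, ∑ j, v i * ρ j + ∑ i, ∑ j, ρ i * v j)
        + (K + 1) ^ 2 * (∑ i, ∑ j, v i * π j + ∑ i, ∑ j, π i * v j) := by
      simp only [Finset.mul_sum, ← Finset.sum_add_distrib, mul_add]
    rw [e1, s1, s2, s3, s4]
    ring
  have hLQ := trace_lap_pr2 hA hQ0 hQ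
  rw [hL0, hLf, mul_div_assoc] at hLQ
  have hge := energy_ge hn0 hmc hQ
  rw [← hAd, htr] at hge
  refine le_trans (le_of_eq ?_) hge
  have hm' : ((m : ℝ) + K + 1) = (((K + 1).choose 2 : ℕ) : ℝ) + n + r := by exact_mod_cast hm
  rw [Nat.cast_choose_two] at hm'
  push_cast at hm'
  have hkey : (lap A * pr2 Q0 f q0).trace =
      2 * m - (p - 1) - ((r + 1) * p ^ 2 + p * (K + 1) ^ 2) / q0 := by
    linarith
  have hrat : ((r + 1) * p ^ 2 + p * (K + 1) ^ 2) / q0 =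
      1 - (K - r) * (n - K - 2) / ((K + 1) * (n - 1)) := by
    rw [hq0, ← hp]
    have hK1 : ((K : ℝ) + 1) ≠ 0 := by linarith
    have hn2 : (n : ℝ) - 1 = p + (K + 1) := by rw [hp]; ring
    rw [hn2]
    have hn3 : p + ((K : ℝ) + 1) ≠ 0 := by linarith
    field_simp
    ring
  rw [hrat] at hkey
  set X : ℝ := ((K : ℝ) - r) * (n - K - 2) / ((K + 1) * (n - 1)) with hX
  have hm2 : (2 : ℝ) * m = K * (K + 1) + 2 * (n - 1 - K) + 2 * r := by linarith
  rw [hkey]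
  set c : ℝ := 2 * (m : ℝ) / n with hc
  linarith

end

end Pool.Agent.Helper87.NT
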