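import Pool.Agent.Helper87.NT.Bal
import Pool.Agent.Helper87.NT.Dense

/-!
MP_f5811f_co: the graph with pendant vertices spread over the core.
-/

namespace Pool.Agent.Helper87.NT

open Matrix Finset Pool.Agent.Helper53.LE

/-- A complete graph on `0, ..., K`, the vertex `K + 1` joined to `0, ..., r`, all further
vertices pendant, spread evenly over the first `K + 2` vertices. -/
def gb (n K r a : ℕ) : SimpleGraph (Fin n) where
  Adj i j := i ≠ j ∧ ((i.val ≤ K ∧ j.val ≤ K) ∨ (i.val = K + 1 ∧ j.val ≤ r) ∨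
    (j.val = K + 1 ∧ i.val ≤ r) ∨ (K + 2 ≤ j.val ∧ i.val = hub (K + 2) a j.val) ∨
    (K + 2 ≤ i.val ∧ j.val = hub (K + 2) a i.val))
  symm := ⟨fun i j h => ⟨h.1.symm, by
    rcases h.2 with h | h | h | h | h
    · exact Or.inl ⟨h.2, h.1⟩
    · exact Or.inr (Or.inr (Or.inl h))
    · exact Or.inr (Or.inl h)
    · exact Or.inr (Or.inr (Or.inr (Or.inr h)))
    · exact Or.inr (Or.inr (Or.inr (Or.inl h)))⟩⟩
  loopless := ⟨fun i h => h.1 rfl⟩

lemma gb_connected {n K r a : ℕ} (hn : K + 2 ≤ n) : (gb n K r a).Connected := by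
  have hn0 : 0 < n := by omega
  haveI : NeZero n := ⟨hn0.ne'⟩
  rw [SimpleGraph.connected_iff_exists_forall_reachable]
  refine ⟨⟨0, hn0⟩, ?_⟩
  have h1 : ∀ i : Fin n, i.val ≤ K + 1 → (gb n K r a).Reachable ⟨0, hn0⟩ i := by
    intro i hi
    by_cases h0 : i.val = 0
    · have : i = ⟨0, hn0⟩ := Fin.ext h0
      rw [this]
    · apply SimpleGraph.Adj.reachable
      refine ⟨fun h => h0 (by rw [← h]), ?_⟩
      by_cases hK : i.val = K + 1
      · right; right; left; exact ⟨hK, Nat.zero_le _⟩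
      · left; exact ⟨Nat.zero_le _, by omega⟩
  intro i
  by_cases hi : i.val ≤ K + 1
  · exact h1 i hi
  · have hh : hub (K + 2) a i.val < K + 2 := hub_lt (by omega)
    refine (h1 ⟨hub (K + 2) a i.val, by omega⟩ (by simp only; omega)).trans
      (SimpleGraph.Adj.reachable ?_)
    refine ⟨fun h => ?_, ?_⟩
    · have := congrArg Fin.val h
      simp only at this
      omega
    · right; right; right; left; exact ⟨by omega, rfl⟩

section

variable {n K r a : ℕ}

lemma gb_pend (hr : r < K) (i j : Fin n) (hj : K + 2 ≤ j.val) :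
    adjR (gb n K r a) i j = if i.val = hub (K + 2) a j.val then 1 else 0 := by
  classical
  rw [adjR_apply]
  have hh : hub (K + 2) a j.val < K + 2 := hub_lt (by omega)
  by_cases hi : i.val = hub (K + 2) a j.val
  · rw [if_pos hi, if_pos]
    refine ⟨fun h => ?_, ?_⟩
    · rw [h] at hi; omega
    · right; right; right; left; exact ⟨hj, hi⟩
  · rw [if_neg hi, if_neg]
    rintro ⟨h1, h2 | h2 | h2 | h2 | h2⟩
    · omega
    · omega
    · omega
    · exact hi h2.2
    · have h3 : hub (K + 2) a i.val < K + 2 := hub_lt (by omega)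
      omega

lemma gb_core (hr : r < K) (i j : Fin n) (hi : i.val < K + 2) (hj : j.val < K + 2) :
    adjR (gb n K r a) i j = (if i = j then 0 else ivl 0 (K + 1) i * ivl 0 (K + 1) j)
      + (ivl (K + 1) (K + 2) i * ivl 0 (r + 1) j + ivl 0 (r + 1) i * ivl (K + 1) (K + 2) j) := by
  classical
  rw [adjR_apply]
  by_cases hij : i = j
  · subst hij
    rw [if_neg (fun h => h.1 rfl), if_pos rfl]
    rcases gs_cat hr i with ⟨-, h1, h2, h3, h4⟩ | ⟨-, h1, h2, h3, h4⟩ | ⟨-, h1, h2, h3, h4⟩ |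
      ⟨-, h1, h2, h3, h4⟩ <;> rw [h2, h3] <;> norm_num
  · rw [if_neg hij]
    rcases gs_cat hr i with ⟨hi, h1, h2, h3, h4⟩ | ⟨hi, h1, h2, h3, h4⟩ | ⟨hi, h1, h2, h3, h4⟩ |
      ⟨hi, h1, h2, h3, h4⟩ <;>
    rcases gs_cat hr j with ⟨hj, g1, g2, g3, g4⟩ | ⟨hj, g1, g2, g3, g4⟩ | ⟨hj, g1, g2, g3, g4⟩ |
      ⟨hj, g1, g2, g3, g4⟩ <;>
    rw [h1, h2, h3, g1, g2, g3] <;>
    first
    | exact absurd (Fin.ext (by omega)) hij
    | (exfalso; omega)
    | (rw [if_pos (show (gb n K r a).Adj i j from ⟨hij, by omega⟩)]; norm_num)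
    | (rw [if_neg (show ¬ (gb n K r a).Adj i j from fun h => by
        have h5 := h.2
        omega)]; norm_num)

lemma gb_sum (hr : r < K) (hK : K + 2 ≤ n) : ∑ i, ∑ j, adjR (gb n K r a) i j =
    (K : ℝ) * (K + 1) + 2 * (r + 1) + 2 * (n - K - 2) := by
  have hA := isGr_adjR (gb n K r a)
  set A := adjR (gb n K r a) with hAd
  have hκ : ∑ i : Fin n, ivl 0 (K + 1) i = (K : ℝ) + 1 := by
    rw [sum_ivl (Nat.zero_le _) (by omega)]; push_cast; ring
  have hρ : ∑ i : Fin n, ivl 0 (r + 1) i = (r : ℝ) + 1 := by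
    rw [sum_ivl (Nat.zero_le _) (by omega)]; push_cast; ring
  have hv : ∑ i : Fin n, ivl (K + 1) (K + 2) i = (1 : ℝ) := by
    rw [sum_ivl (by omega) (by omega)]; push_cast; ring
  have hπ : ∑ i : Fin n, ivl (K + 2) n i = (n : ℝ) - K - 2 := by
    rw [sum_ivl hK le_rfl]; push_cast; ring
  have hcol : ∀ j : Fin n, K + 2 ≤ j.val → ∑ i, A i j = 1 := by
    intro j hj
    have hlt : hub (K + 2) a j.val < n :=
      lt_of_lt_of_le (hub_lt (by omega)) hK
    rw [Finset.sum_eq_single (⟨hub (K + 2) a j.val, hlt⟩ : Fin n)]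
    · rw [hAd, gb_pend hr _ j hj, if_pos rfl]
    · intro i _ hi
      rw [hAd, gb_pend hr i j hj, if_neg (fun h2 => hi (Fin.ext h2))]
    · simp
  have h1 : ∀ i j : Fin n, A i j =
      (ivl 0 (K + 1) i * ivl 0 (K + 1) j - (if i = j then ivl 0 (K + 1) i else 0)
      + (ivl (K + 1) (K + 2) i * ivl 0 (r + 1) j + ivl 0 (r + 1) i * ivl (K + 1) (K + 2) j))
      + (ivl (K + 2) n j * A i j + ivl (K + 2) n i * A j i) := by
    intro i j
    by_cases hi : i.val < K + 2
    · by_cases hj : j.val < K + 2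
      · have e1 : ivl (K + 2) n i = 0 := ivl_neg (by omega)
        have e2 : ivl (K + 2) n j = 0 := ivl_neg (by omega)
        rw [e1, e2, hAd, gb_core hr i j hi hj]
        by_cases hij : i = j
        · subst hij
          rw [if_pos rfl, if_pos rfl]
          rcases gs_cat hr i with ⟨-, h1, -⟩ | ⟨-, h1, -⟩ | ⟨-, h1, -⟩ | ⟨-, h1, -⟩ <;>
            rw [h1] <;> ring
        · rw [if_neg hij, if_neg hij]; ring
      · have e1 : ivl (K + 2) n i = 0 := ivl_neg (by omega)
        have e2 : ivl (K + 2) n j = 1 := ivl_pos ⟨by omega, j.2⟩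
        have hij : i ≠ j := fun h => by rw [h] at hi; omega
        have e3 : ivl 0 (K + 1) j = 0 := ivl_neg (by omega)
        have e4 : ivl 0 (r + 1) j = 0 := ivl_neg (by omega)
        have e5 : ivl (K + 1) (K + 2) j = 0 := ivl_neg (by omega)
        rw [e1, e2, e3, e4, e5, if_neg hij]; ring
    · have e1 : ivl (K + 2) n i = 1 := ivl_pos ⟨by omega, i.2⟩
      have e3 : ivl 0 (K + 1) i = 0 := ivl_neg (by omega)
      have e4 : ivl 0 (r + 1) i = 0 := ivl_neg (by omega)
      have e5 : ivl (K + 1) (K + 2) i = 0 := ivl_neg (by omega)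
      rw [e1, e3, e4, e5, hA.symm j i]
      by_cases hj : j.val < K + 2
      · have e2 : ivl (K + 2) n j = 0 := ivl_neg (by omega)
        rw [e2]; simp
      · have h0 : A i j = 0 := by
          have h3 : hub (K + 2) a j.val < K + 2 := hub_lt (by omega)
          rw [hAd, gb_pend hr i j (by omega), if_neg (by omega)]
        rw [h0]; simp
  have h2 : ∑ i : Fin n, ∑ j : Fin n, (if i = j then ivl 0 (K + 1) i else 0) = (K : ℝ) + 1 := by
    rw [← hκ]
    refine Finset.sum_congr rfl fun i _ => ?_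
    simp
  have h3 : ∑ i : Fin n, ∑ j : Fin n, ivl (K + 2) n j * A i j = (n : ℝ) - K - 2 := by
    rw [Finset.sum_comm, ← hπ]
    refine Finset.sum_congr rfl fun j _ => ?_
    rw [← Finset.mul_sum]
    by_cases hj : K + 2 ≤ j.val
    · rw [hcol j hj, mul_one]
    · rw [ivl_neg (by omega), zero_mul]
  have h4 : ∑ i : Fin n, ∑ j : Fin n, ivl (K + 2) n i * A j i = (n : ℝ) - K - 2 := by
    rw [Finset.sum_comm]; exact h3
  calc ∑ i, ∑ j, A i j = ∑ i : Fin n, ∑ j : Fin n,
      ((ivl 0 (K + 1) i * ivl 0 (K + 1) j - (if i = j then ivl 0 (K + 1) i else 0)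
      + (ivl (K + 1) (K + 2) i * ivl 0 (r + 1) j + ivl 0 (r + 1) i * ivl (K + 1) (K + 2) j))
      + (ivl (K + 2) n j * A i j + ivl (K + 2) n i * A j i)) :=
        Finset.sum_congr rfl fun i _ => Finset.sum_congr rfl fun j _ => h1 i j
    _ = _ := by
        simp only [Finset.sum_add_distrib, Finset.sum_sub_distrib, sum_sum_mul, hκ, hρ, hv, h2,
          h3, h4]
        ring

lemma gb_ncard {m : ℕ} (hr : r < K) (hK : K + 2 ≤ n) (hm : m + K + 1 = (K + 1).choose 2 + n + r) :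
    (gb n K r a).edgeSet.ncard = m := by
  have h1 := sum_adjR (gb n K r a)
  rw [gb_sum hr hK] at h1
  have h2 : ((m : ℝ) + K + 1) = (((K + 1).choose 2 : ℕ) : ℝ) + n + r := by exact_mod_cast hm
  rw [Nat.cast_choose_two] at h2
  push_cast at h2
  have h3 : ((gb n K r a).edgeSet.ncard : ℝ) = m := by linarith
  exact_mod_cast h3

/-- the energy of `gb` -/
theorem gb_energy {m : ℕ} (hr : r < K) (ha : 0 < a) (hNa : (K + 2) * (a + 1) ≤ n)
    (hNa2 : n ≤ (K + 2) * (a + 2)) (hm : m + K + 1 = (K + 1).choose 2 + n + r) :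
    2 * ((m : ℝ) + (K : ℝ) * (K + 1) / 2 - 2 * m / n * K + ((r : ℝ) + 1 - 2 * m / n)
      - 2 * m / n + (K + 2) * a / (K + 2 + a)) ≤ laplacianEnergy (gb n K r a) := by
  have hKn : K + 2 ≤ n := by nlinarith
  have hmc := gb_ncard (a := a) hr hKn hm
  have h2 : ((m : ℝ) + K + 1) = (((K + 1).choose 2 : ℕ) : ℝ) + n + r := by exact_mod_cast hm
  rw [Nat.cast_choose_two] at h2
  push_cast at h2
  have hrK : (r : ℝ) + 1 ≤ K := by exact_mod_cast hr
  have h := hub_energy (N := K + 2) (a := a) (by omega) ha hNa hNa2 hmc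
    (fun i j hj => gb_pend hr i j hj) (by push_cast; nlinarith)
  refine le_trans (le_of_eq ?_) h
  push_cast
  set c : ℝ := 2 * (m : ℝ) / n with hc
  set X : ℝ := ((K : ℝ) + 2) * a / (K + 2 + a) with hX
  linarith

end

end Pool.Agent.Helper87.NT
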