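import Mathlib

/-!
MP_f5811f_co: real inequalities.
-/

namespace Pool.Agent.Helper87.NT

/-- the envelope of the bounds for threshold graphs -/
lemma env_le {n m K r c : ℝ} {k : ℕ} {Kn : ℕ} (hKn : (Kn : ℝ) = K) (hK1 : 1 ≤ K) (hr0 : 0 ≤ r)
    (hn2 : 2 ≤ n) (hcn : c ≤ n) (hc1 : 1 ≤ c)
    (hm : 2 * m = K * (K + 1) + 2 * (n - 1 - K) + 2 * r)
    (h : 2 * c ≤ K + 3 ∨ (2 * c - K - 1) * (n - c) ≤ m + K * (K + 1) / 2 - c * K) :
    min (n * k) (min (m + k * (k + 1) / 2) (2 * m - n + 1 + k)) - c * k ≤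
      m + K * (K + 1) / 2 - c * K + max 0 (r + 1 - c) := by
  have hmax0 := le_max_left 0 (r + 1 - c)
  have hmax1 := le_max_right 0 (r + 1 - c)
  have hmin1 := min_le_left (n * k) (min (m + k * (k + 1) / 2) (2 * m - n + 1 + k))
  have hmin2 := (min_le_right (n * k) (min (m + k * (k + 1) / 2) (2 * m - n + 1 + k))).trans
    (min_le_left _ _)
  have hmin3 := (min_le_right (n * k) (min (m + k * (k + 1) / 2) (2 * m - n + 1 + k))).trans
    (min_le_right _ _)
  have hk0 : (0 : ℝ) ≤ k := Nat.cast_nonneg k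
  rcases le_or_gt k Kn with hk | hk
  · have hkK : (k : ℝ) ≤ K := by rw [← hKn]; exact_mod_cast hk
    rcases h with h | h
    · rcases Nat.lt_or_ge k 2 with hk2 | hk2
      · interval_cases k
        · -- k = 0
          have h1 : 0 ≤ m + K * (K + 1) / 2 - c * K := by nlinarith [sq_nonneg (K - 1)]
          simp only [Nat.cast_zero, mul_zero] at hmin1 ⊢
          linarith
        · -- k = 1
          have h1 : n - c ≤ m + K * (K + 1) / 2 - c * K := by
            nlinarith [sq_nonneg (K - 1)]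
          simp only [Nat.cast_one, mul_one] at hmin1 ⊢
          linarith
      · have hk2' : (2 : ℝ) ≤ k := by exact_mod_cast hk2
        have h1 : 0 ≤ (K - k) * ((K + k + 1) / 2 - c) :=
          mul_nonneg (by linarith) (by linarith)
        nlinarith
    · rcases le_or_gt (2 * c - K - 1) (k : ℝ) with h2 | h2
      · have h1 : 0 ≤ (K - k) * ((K + k + 1) / 2 - c) :=
          mul_nonneg (by linarith) (by linarith)
        nlinarith
      · have h1 : (k : ℝ) * (n - c) ≤ (2 * c - K - 1) * (n - c) :=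
          mul_le_mul_of_nonneg_right h2.le (by linarith)
        nlinarith
  · have hkK : K + 1 ≤ k := by rw [← hKn]; exact_mod_cast hk
    have h1 : 0 ≤ (k - (K + 1)) * (c - 1) := mul_nonneg (by linarith) (by linarith)
    nlinarith

/-- the dense range -/
lemma dense_cond {ε : ℝ} (hε : 0 < ε) : ∃ n₀ : ℝ, ∀ n m K r c : ℝ, n₀ ≤ n → 1 ≤ K → 0 ≤ r →
    r + 1 ≤ K → c * n = 2 * m → 3 ≤ c → m ≤ (1 / 4 - ε) * n ^ 2 →
    2 * m = K * (K + 1) + 2 * (n - 1 - K) + 2 * r →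
    (2 * c - K - 1) * (n - c) ≤ m + K * (K + 1) / 2 - c * K := by
  set B : ℝ := 1 + 1 / (8 * ε) with hB
  have hB1 : 1 ≤ B := by
    have : 0 < 1 / (8 * ε) := by positivity
    rw [hB]; linarith
  refine ⟨(3 + B) ^ 2 + 10, fun n m K r c hn hK hr hrK hc hc3 hm hmK => ?_⟩
  have hn0 : 0 < n := by nlinarith
  have hBn : 3 + 2 * B ≤ n / 2 := by nlinarith
  -- c < n/2
  have hc2 : c ≤ (1 / 2 - 2 * ε) * n := by
    have h1 : c * n ≤ ((1 / 2 - 2 * ε) * n) * n := by rw [hc]; nlinarith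
    exact le_of_mul_le_mul_right h1 hn0
  have hεn : 0 < ε * n := by positivity
  have hc4 : c ≤ n / 2 := by linarith
  -- (K+1)^2 ≥ (c-2) n
  have h1 : (c - 2) * n ≤ (K + 1) ^ 2 := by nlinarith
  -- K - c ≥ 1/(8 ε)
  have h2 : c + B ≤ K + 1 := by
    by_contra hcon
    push Not at hcon
    have h3 : (K + 1) ^ 2 < (c + B) ^ 2 := by
      apply pow_lt_pow_left₀ hcon (by linarith) (by norm_num)
    have h4 : 0 ≤ (c - 3) * (n / 2 - c) := mul_nonneg (by linarith) (by linarith)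
    have h5 : 0 ≤ (c - 3) * (n / 2 - 3 - 2 * B) := mul_nonneg (by linarith) (by linarith)
    nlinarith
  have h3 : 1 / (8 * ε) ≤ K - c := by rw [hB] at h2; linarith
  have h4 : 4 * ε * n ≤ n - 2 * c := by linarith
  have h5 : 1 / (8 * ε) * (4 * ε * n) ≤ (K - c) * (n - 2 * c) :=
    mul_le_mul h3 h4 (by positivity) (by linarith [show 0 < 1 / (8 * ε) by positivity])
  have h6 : 1 / (8 * ε) * (4 * ε * n) = n / 2 := by field_simp; ring
  have h7 : m + K * (K + 1) / 2 - c * K - (2 * c - K - 1) * (n - c) =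
      (K - c) * (n - 2 * c) + (K + 1 - r) - c := by
    have e1 : K * K = c * n + K - 2 * n + 2 - 2 * r := by rw [hc]; linarith
    have e2 : m = c * n / 2 := by linarith
    rw [e2]
    linear_combination (1 / 2) * e1
  linarith

private lemma sA1 {N a n : ℝ} (hN4 : 4 ≤ N) (hN40 : N ≤ 40) (hn : 10 ^ 6 ≤ n) (hNa : 0 < N + a)
    (haN : n - 2 * N ≤ N * a) : N ^ 2 / (N + a) ≤ 1 / 10 := by
  rw [div_le_div_iff₀ hNa (by norm_num)]
  have h2 : N ^ 2 ≤ 1600 := by nlinarith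
  have h3 : N ^ 2 * N ≤ 1600 * 40 := mul_le_mul h2 hN40 (by linarith) (by norm_num)
  have h4 : N * (N ^ 2 * 10) ≤ N * (1 * (N + a)) := by
    have e1 : N * (N ^ 2 * 10) = 10 * (N ^ 2 * N) := by ring
    have e2 : N * (1 * (N + a)) = N ^ 2 + N * a := by ring
    rw [e1, e2]
    have := sq_nonneg N
    linarith
  exact le_of_mul_le_mul_left h4 (by linarith)

private lemma sA2 {N a n M : ℝ} (hN40 : 40 < N) (hN3 : (N - 3) ^ 2 ≤ 2 * M) (hM : 4 * M ≤ n)
    (hNa : 0 < N + a) (haN : n - 2 * N ≤ N * a) : N ^ 2 / (N + a) ≤ N / 2.6 := by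
  rw [div_le_div_iff₀ hNa (by norm_num)]
  have h3 : 1.7 * N ^ 2 ≤ n := by
    have e1 : (N - 3) ^ 2 = N ^ 2 - 6 * N + 9 := by ring
    have h40 : 40 * N ≤ N ^ 2 := by nlinarith
    rw [e1] at hN3
    linarith
  have h40 : 40 * N ≤ N ^ 2 := by nlinarith
  have e3 : N * (N + a) = N ^ 2 + N * a := by ring
  rw [e3]
  linarith

private lemma sB1 {y s m n : ℝ} (hys : y * s = n) (hs2 : s ^ 2 = m) (hs0 : 0 < s)
    (hm12 : 1.2 * n ≤ m) : 1.2 * y ≤ s := by
  have : 1.2 * y * s ≤ s * s := by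
    have e1 : 1.2 * y * s = 1.2 * (y * s) := by ring
    have e2 : s * s = s ^ 2 := by ring
    rw [e1, e2, hys, hs2]; exact hm12
  exact le_of_mul_le_mul_right this hs0

private lemma sB2 {s m n : ℝ} (hs2 : s ^ 2 = m) (hs0 : 0 < s) (hn : 10 ^ 6 ≤ n)
    (hm12 : 1.2 * n ≤ m) : 1000 ≤ s := by
  by_contra hcon
  push Not at hcon
  have h1 : s ^ 2 < 1000 ^ 2 := pow_lt_pow_left₀ hcon hs0.le (by norm_num)
  rw [hs2] at h1
  linarith

private lemma sB3 {y s m n : ℝ} (hys : y * s = n) (hs2 : s ^ 2 = m) (hs0 : 0 < s) (hy0 : 0 < y)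
    (hmn : 4096 * m ^ 3 ≤ n ^ 4) : 64 * s ≤ y ^ 2 := by
  have h1 : (64 * s) ^ 2 ≤ (y ^ 2) ^ 2 := by
    have e1 : 4096 * m ^ 3 = (64 * s) ^ 2 * (s ^ 2) ^ 2 := by rw [← hs2]; ring
    have e2 : n ^ 4 = (y ^ 2) ^ 2 * (s ^ 2) ^ 2 := by rw [← hys]; ring
    rw [e1, e2] at hmn
    exact le_of_mul_le_mul_right hmn (by positivity)
  exact (pow_le_pow_iff_left₀ (by positivity) (by positivity) (by norm_num)).mp h1

private lemma sB4 {y s : ℝ} (hs : 1000 ≤ s) (hy0 : 0 < y) (h64 : 64 * s ≤ y ^ 2) : 250 ≤ y := by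
  by_contra hcon
  push Not at hcon
  have h1 : y ^ 2 < 250 ^ 2 := pow_lt_pow_left₀ hcon hy0.le (by norm_num)
  linarith

private lemma sB5 {N s m M : ℝ} (hN0 : 0 ≤ N) (hs0 : 0 < s) (hs2 : s ^ 2 = m)
    (hN2 : 2 * M ≤ N ^ 2) (h2 : m ≤ 5 * M) : 0.63 * s ≤ N := by
  by_contra hcon
  push Not at hcon
  have h1 : N ^ 2 < (0.63 * s) ^ 2 := pow_lt_pow_left₀ hcon hN0 (by norm_num)
  have e1 : (0.63 * s) ^ 2 = 0.3969 * s ^ 2 := by ring
  have h3 := pow_pos hs0 2
  rw [e1] at h1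
  linarith

private lemma sB6 {N s m M : ℝ} (hs : 1000 ≤ s) (hs2 : s ^ 2 = m)
    (hN3 : (N - 3) ^ 2 ≤ 2 * M) (h2 : 2 * M ≤ 2 * m) : N ≤ 1.42 * s := by
  by_contra hcon
  push Not at hcon
  have h1 : (1.42 * s - 3) ^ 2 < (N - 3) ^ 2 :=
    pow_lt_pow_left₀ (by linarith) (by linarith) (by norm_num)
  have e1 : (1.42 * s - 3) ^ 2 = 2.0164 * s ^ 2 - 8.52 * s + 9 := by ring
  have h3 : 1000 * s ≤ s ^ 2 := by nlinarith
  rw [e1] at h1
  linarith

private lemma sB7 {N s n y a : ℝ} (hs0 : 0 < s) (hys : y * s = n) (hNs2 : N ≤ 1.42 * s)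
    (ha0 : 0 ≤ a) (ha : n ≤ N * (a + 2)) (hy : 250 ≤ y) : 0.68 * y ≤ a := by
  by_contra hcon
  push Not at hcon
  have h1 : n ≤ 1.42 * s * (a + 2) := by
    have : N * (a + 2) ≤ 1.42 * s * (a + 2) :=
      mul_le_mul_of_nonneg_right hNs2 (by linarith)
    linarith
  rw [← hys] at h1
  have h2 : y ≤ 1.42 * (a + 2) := by
    have : y * s ≤ (1.42 * (a + 2)) * s := by linarith
    exact le_of_mul_le_mul_right this hs0
  linarith

private lemma sB8 {y s m n c : ℝ} (hys : y * s = n) (hs2 : s ^ 2 = m) (hs0 : 0 < s)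
    (hy0 : 0 < y) (h64 : 64 * s ≤ y ^ 2) (hc : c * n = 2 * m) : 2 * c ≤ y / 16 := by
  have h1 : 2 * c * y = 4 * s := by
    have : (2 * c * y) * s = (4 * s) * s := by
      calc (2 * c * y) * s = 2 * (c * n) := by rw [← hys]; ring
        _ = (4 * s) * s := by rw [hc, ← hs2]; ring
    exact mul_right_cancel₀ hs0.ne' this
  have h2 : 2 * c * y ≤ y / 16 * y := by
    rw [h1]
    have e1 : y / 16 * y = y ^ 2 / 16 := by ring
    rw [e1]; linarith
  exact le_of_mul_le_mul_right h2 hy0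

private lemma sB9 {N a y : ℝ} (hNa : 0 < N + a) (hNy : 0.75 * y ≤ N) (hay : 0.68 * y ≤ a)
    (hy0 : 0 < y) : 0.35 * y ≤ N * a / (N + a) := by
  rw [le_div_iff₀ hNa]
  have h1 : 0 ≤ (N - 0.75 * y) * (a - 0.68 * y) := mul_nonneg (by linarith) (by linarith)
  have h2 : 0 ≤ (N - 0.75 * y) * y := mul_nonneg (by linarith) hy0.le
  have h3 : 0 ≤ (a - 0.68 * y) * y := mul_nonneg (by linarith) hy0.le
  have h4 : 0 ≤ y * y := by positivity
  have e1 : N * a - 0.35 * y * (N + a) = (N - 0.75 * y) * (a - 0.68 * y) +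
      0.33 * ((N - 0.75 * y) * y) + 0.4 * ((a - 0.68 * y) * y) + 0.0095 * (y * y) := by ring
  linarith

/-- the sparse range -/
lemma sparse_cond {n m K r a c M : ℝ} (hn : 10 ^ 6 ≤ n) (hK : 2 ≤ K) (hr : 0 ≤ r)
    (hrK : r + 1 ≤ K) (ha0 : 0 ≤ a) (ha : n ≤ (K + 2) * (a + 2)) (hc : c * n = 2 * m)
    (hM : M = m - n + 1) (hM1 : 1 ≤ M) (hmK : 2 * m = K * (K + 1) + 2 * (n - 1 - K) + 2 * r)
    (hmn : 4096 * m ^ 3 ≤ n ^ 4) :
    2 * c ≤ K + 3 ∧
    1 / 5 * min (Real.sqrt M) (n / Real.sqrt m) ≤ (K + 2) * a / (K + 2 + a) - 2 * c + 1 := by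
  have hn0 : 0 < n := by linarith
  set N : ℝ := K + 2 with hN
  have hN4 : 4 ≤ N := by rw [hN]; linarith
  have hMK : 2 * M = K * (K - 1) + 2 * r := by rw [hM]; linarith
  have hN2 : 2 * M ≤ N ^ 2 := by
    have e1 : N ^ 2 = K * (K - 1) + 5 * K + 4 := by rw [hN]; ring
    rw [e1]; linarith
  have hN3 : (N - 3) ^ 2 ≤ 2 * M := by
    have e1 : (N - 3) ^ 2 = K * (K - 1) - K + 1 := by rw [hN]; ring
    rw [e1]; linarith
  have hNa : 0 < N + a := by linarith
  have hm0 : 0 < m := by linarith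
  have haN : n - 2 * N ≤ N * a := by
    rw [mul_add] at ha; linarith
  rcases le_or_gt (4 * M) n with hcase | hcase
  · -- case A
    have hc1 : 2 * c ≤ 4 + 4 * M / n := by
      have : 2 * c * n ≤ (4 + 4 * M / n) * n := by
        have e1 : (4 + 4 * M / n) * n = 4 * n + 4 * M := by field_simp
        have e2 : 2 * c * n = 2 * (c * n) := by ring
        rw [e1, e2, hc]; linarith
      exact le_of_mul_le_mul_right this hn0
    have hMn : 4 * M / n ≤ 1 := by rw [div_le_one hn0]; exact hcase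
    refine ⟨by rw [hN] at hN4; linarith, ?_⟩
    have hsqrt : Real.sqrt M ≤ N := by
      apply Real.sqrt_le_iff.mpr
      exact ⟨by linarith, by linarith⟩
    have hmin := min_le_left (Real.sqrt M) (n / Real.sqrt m)
    have hf : N * a / (N + a) = N - N ^ 2 / (N + a) := by
      field_simp; ring
    rw [hf]
    rcases le_or_gt N 40 with hN40 | hN40
    · have h1 := sA1 hN4 hN40 hn hNa haN
      have h2 : 4 * M / n ≤ 1 / 10 := by
        rw [div_le_div_iff₀ hn0 (by norm_num)]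
        have h3 : N ^ 2 ≤ 40 ^ 2 := pow_le_pow_left₀ (by linarith) hN40 2
        linarith
      linarith
    · have h1 := sA2 hN40 hN3 hcase hNa haN
      have h5 : N / 2.6 ≤ 0.385 * N := by
        rw [div_le_iff₀ (by norm_num)]; linarith
      linarith
  · -- case B
    set s : ℝ := Real.sqrt m with hs
    have hs2 : s ^ 2 = m := Real.sq_sqrt hm0.le
    have hs0 : 0 < s := Real.sqrt_pos.mpr hm0
    set y : ℝ := n / s with hy
    have hys : y * s = n := by rw [hy]; field_simp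
    have hy0 : 0 < y := by positivity
    have hm12 : 1.2 * n ≤ m := by linarith
    have hsy := sB1 hys hs2 hs0 hm12
    have hs1000 := sB2 hs2 hs0 hn hm12
    have h64 := sB3 hys hs2 hs0 hy0 hmn
    have hy250 := sB4 hs1000 hy0 h64
    have hNs1 := sB5 (by linarith) hs0 hs2 hN2 (by linarith)
    have hNs2 := sB6 hs1000 hs2 hN3 (by linarith)
    have hNy : 0.75 * y ≤ N := by linarith
    have hay := sB7 hs0 hys hNs2 ha0 ha hy250
    have hc2 := sB8 hys hs2 hs0 hy0 h64 hc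
    refine ⟨by rw [hN] at hNy; linarith, ?_⟩
    have hmin := min_le_right (Real.sqrt M) y
    have hf := sB9 hNa hNy hay hy0
    linarith

end Pool.Agent.Helper87.NT
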