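import Pool.Agent.Helper87.NT.Gb
import Pool.Agent.Helper87.NT.Real

/-!
MP_f5811f_co: threshold graphs do not attain the maximum.
-/

namespace Pool.Agent.Helper87.NT

open Matrix Finset Pool.Agent.Helper53.LE

/-- decomposition of the number of edges -/
lemma tri_ex (b : ℕ) : ∃ K r : ℕ, r ≤ K ∧ b = (K + 1).choose 2 + r := by
  induction b with
  | zero => exact ⟨0, 0, le_rfl, by simp⟩
  | succ b ih =>
    obtain ⟨K, r, h1, h2⟩ := ih
    rcases Nat.lt_or_ge r K with h | h
    · exact ⟨K, r + 1, h, by omega⟩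
    · refine ⟨K + 1, 0, Nat.zero_le _, ?_⟩
      have h3 : (K + 1 + 1).choose 2 = (K + 1).choose 1 + (K + 1).choose 2 :=
        Nat.choose_succ_succ _ _
      rw [Nat.choose_one_right] at h3
      omega

lemma decomp {n m : ℕ} (h : n ≤ m + 1) :
    ∃ K r : ℕ, r < K ∧ m + K + 1 = (K + 1).choose 2 + n + r := by
  obtain ⟨b, hb⟩ := Nat.exists_eq_add_of_le h
  obtain ⟨K, r, h1, h2⟩ := tri_ex b
  refine ⟨K + 1, r, by omega, ?_⟩
  have h3 : (K + 1 + 1).choose 2 = (K + 1).choose 1 + (K + 1).choose 2 :=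
    Nat.choose_succ_succ _ _
  rw [Nat.choose_one_right] at h3
  omega

lemma real_decomp {n m K r : ℕ} (hm : m + K + 1 = (K + 1).choose 2 + n + r) :
    (2 * m : ℝ) = K * (K + 1) + 2 * (n - 1 - K) + 2 * r := by
  have h2 : ((m : ℝ) + K + 1) = (((K + 1).choose 2 : ℕ) : ℝ) + n + r := by exact_mod_cast hm
  rw [Nat.cast_choose_two] at h2
  push_cast at h2
  linarith

/-- the energy of connected threshold graphs -/
lemma thr_bound {n m K r : ℕ} (hn : 2 ≤ n) (hr : r < K)
    (hm : m + K + 1 = (K + 1).choose 2 + n + r) (hmn : m ≤ n ^ 2 / 2)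
    (h : 2 * (2 * (m : ℝ) / n) ≤ K + 3 ∨ (2 * (2 * (m : ℝ) / n) - K - 1) * (n - 2 * m / n) ≤
      m + (K : ℝ) * (K + 1) / 2 - 2 * m / n * K)
    {T : SimpleGraph (Fin n)} (hT : IsThreshold T) (hc : T.Connected)
    (hTm : T.edgeSet.ncard = m) :
    laplacianEnergy T ≤ 2 * (m + (K : ℝ) * (K + 1) / 2 - 2 * m / n * K +
      max 0 ((r : ℝ) + 1 - 2 * m / n)) := by
  have hmr := real_decomp hm
  have hnR : (2 : ℝ) ≤ n := by exact_mod_cast hn
  have hn0 : (0 : ℝ) < n := by linarith
  have hK1 : (1 : ℝ) ≤ K := by exact_mod_cast (by omega : 1 ≤ K)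
  have hr0 : (0 : ℝ) ≤ r := Nat.cast_nonneg r
  have hKK : (K : ℝ) ≤ K * K := by nlinarith
  have hm1 : (n : ℝ) - 1 ≤ m := by linarith
  have hmpos : (0 : ℝ) < m := by linarith
  have hc1 : 1 ≤ 2 * (m : ℝ) / n := by
    rw [le_div_iff₀ hn0]; linarith
  have hcn : 2 * (m : ℝ) / n ≤ n := by
    rw [div_le_iff₀ hn0]
    have h1 : 2 * m ≤ n * n := by
      have := Nat.div_mul_le_self (n ^ 2) 2
      rw [pow_two] at this hmn
      omega
    exact_mod_cast h1
  apply hT.energy_le hc hn hTm (by exact_mod_cast hmpos)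
  intro k _
  exact env_le (k := k) (Kn := K) rfl hK1 hr0 hnR hcn hc1 hmr h

/-- dense case -/
theorem dense_main {ε : ℝ} (hε : 0 < ε) : ∃ n₀ : ℕ, ∀ n m K r : ℕ, n₀ ≤ n →
    (m : ℝ) ≤ (1 / 4 - ε) * (n : ℝ) ^ 2 → r < K → m + K + 1 = (K + 1).choose 2 + n + r →
    ∃ G : SimpleGraph (Fin n), G.Connected ∧ G.edgeSet.ncard = m ∧
      ∀ T : SimpleGraph (Fin n), IsThreshold T → T.Connected → T.edgeSet.ncard = m →
        laplacianEnergy T + 2 * min (((K : ℝ) - r) * (n - K - 2) / ((K + 1) * (n - 1)))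
          ((r : ℝ) + 1 - 2 * m / n + (K - r) * (n - K - 2) / ((K + 1) * (n - 1))) ≤
          laplacianEnergy G := by
  obtain ⟨N0, hN0⟩ := dense_cond hε
  refine ⟨max ⌈N0⌉₊ 10, fun n m K r hn hm hr hmK => ?_⟩
  have hnN : N0 ≤ n := (Nat.le_ceil N0).trans (by exact_mod_cast (le_max_left _ _).trans hn)
  have hn10 : 10 ≤ n := (le_max_right _ _).trans hn
  have hnR : (10 : ℝ) ≤ n := by exact_mod_cast hn10
  have hn0 : (0 : ℝ) < n := by linarith
  have hmr := real_decomp hmK
  have hrK : (r : ℝ) + 1 ≤ K := by exact_mod_cast hr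
  have hr0 : (0 : ℝ) ≤ r := Nat.cast_nonneg r
  have hm4 : (m : ℝ) ≤ (n : ℝ) ^ 2 / 4 := by
    have : 0 < ε * (n : ℝ) ^ 2 := by positivity
    linarith
  have hKn : K + 2 < n := by
    by_contra hcon
    push Not at hcon
    have h1 : (n : ℝ) - 2 ≤ K := by
      have : (n : ℝ) ≤ K + 2 := by exact_mod_cast hcon
      linarith
    have h2 : ((n : ℝ) - 2) * (n - 3) ≤ K * (K - 1) :=
      mul_le_mul h1 (by linarith) (by linarith) (by linarith)
    nlinarith
  refine ⟨gs n K r, gs_connected (by omega), gs_ncard hr (by omega) hmK, ?_⟩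
  intro T hT hTc hTm
  have hE := gs_energy hr hKn hmK
  have hmn : m ≤ n ^ 2 / 2 := by
    rw [Nat.le_div_iff_mul_le (by norm_num)]
    have : (m : ℝ) * 2 ≤ (n : ℝ) ^ 2 := by nlinarith [sq_nonneg (n : ℝ)]
    exact_mod_cast this
  have hcond : 2 * (2 * (m : ℝ) / n) ≤ K + 3 ∨
      (2 * (2 * (m : ℝ) / n) - K - 1) * (n - 2 * m / n) ≤
      m + (K : ℝ) * (K + 1) / 2 - 2 * m / n * K := by
    rcases le_or_gt 3 (2 * (m : ℝ) / n) with h3 | h3
    · right
      exact hN0 n m K r (2 * (m : ℝ) / n) hnN (by linarith) hr0 hrK (by field_simp) h3 hm hmr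
    · left
      rcases Nat.lt_or_ge K 3 with hK3 | hK3
      · -- `m ≤ n + 1`
        have hmn1 : m ≤ n + 1 := by
          have h4 : (K + 1).choose 2 ≤ 3 := by
            interval_cases K <;> decide
          interval_cases K
          · omega
          · have h5 : (1 + 1).choose 2 = 1 := by decide
            omega
          · have h5 : (2 + 1).choose 2 = 3 := by decide
            omega
        have hmn1R : (m : ℝ) ≤ n + 1 := by exact_mod_cast hmn1
        have h5 : 2 * (m : ℝ) / n ≤ 2.2 := by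
          rw [div_le_iff₀ hn0]; linarith
        rcases Nat.lt_or_ge K 2 with hK2 | hK2
        · have hK1 : K = 1 := by omega
          subst hK1
          have hr0' : r = 0 := by omega
          subst hr0'
          have h6 : (1 + 1).choose 2 = 1 := by decide
          have h7 : m + 1 = n := by omega
          have h8 : 2 * (m : ℝ) / n ≤ 2 := by
            rw [div_le_iff₀ hn0]
            have : (m : ℝ) + 1 = n := by exact_mod_cast h7
            linarith
          push_cast; linarith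
        · have : (2 : ℝ) ≤ K := by exact_mod_cast hK2
          linarith
      · have : (3 : ℝ) ≤ K := by exact_mod_cast hK3
        linarith
  have hb := thr_bound (by omega) hr hmK hmn hcond hT hTc hTm
  set X : ℝ := ((K : ℝ) - r) * (n - K - 2) / ((K + 1) * (n - 1)) with hX
  rcases le_total 0 ((r : ℝ) + 1 - 2 * m / n) with h | h
  · rw [max_eq_right h] at hb
    have := min_le_left X ((r : ℝ) + 1 - 2 * m / n + X)
    linarith
  · rw [max_eq_left h] at hb
    have := min_le_right X ((r : ℝ) + 1 - 2 * m / n + X)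
    linarith

/-- sparse case -/
theorem sparse_main {n m : ℕ} (hn : 10 ^ 6 ≤ n) (hnm : n ≤ m) (hm : 4096 * m ^ 3 ≤ n ^ 4) :
    ∃ G : SimpleGraph (Fin n), G.Connected ∧ G.edgeSet.ncard = m ∧
      ∀ T : SimpleGraph (Fin n), IsThreshold T → T.Connected → T.edgeSet.ncard = m →
        laplacianEnergy T + 2 / 5 * min (Real.sqrt (m - n + 1)) (n / Real.sqrt m) ≤
          laplacianEnergy G := by
  obtain ⟨K, r, hr, hmK⟩ := decomp (show n ≤ m + 1 by omega)
  have hmr := real_decomp hmK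
  have hnR : (10 : ℝ) ^ 6 ≤ n := by exact_mod_cast hn
  have hn0 : (0 : ℝ) < n := by linarith
  have hnmR : (n : ℝ) ≤ m := by exact_mod_cast hnm
  have hmR : 4096 * (m : ℝ) ^ 3 ≤ (n : ℝ) ^ 4 := by exact_mod_cast hm
  have hrK : (r : ℝ) + 1 ≤ K := by exact_mod_cast hr
  have hr0 : (0 : ℝ) ≤ r := Nat.cast_nonneg r
  have hK2 : 2 ≤ K := by
    by_contra hcon
    have : K = 1 := by omega
    subst this
    have : r = 0 := by omega
    subst this
    simp at hmK
    omega
  have hK2R : (2 : ℝ) ≤ K := by exact_mod_cast hK2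
  -- m is at most n^2/10
  have hm10 : 10 * (m : ℝ) < (n : ℝ) ^ 2 := by
    by_contra hcon
    push Not at hcon
    have h1 : ((n : ℝ) ^ 2) ^ 3 ≤ (10 * (m : ℝ)) ^ 3 := pow_le_pow_left₀ (by positivity) hcon 3
    have h2 : ((n : ℝ) ^ 2) ^ 3 = (n : ℝ) ^ 4 * (n : ℝ) ^ 2 := by ring
    have h3 : (10 * (m : ℝ)) ^ 3 = 1000 * (m : ℝ) ^ 3 := by ring
    rw [h2, h3] at h1
    have h4 : (n : ℝ) ^ 4 * 1 < (n : ℝ) ^ 4 * (n : ℝ) ^ 2 := by
      apply mul_lt_mul_of_pos_left _ (by positivity)
      nlinarith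
    nlinarith [pow_pos hn0 4]
  have hKn : 2 * (K + 2) ≤ n := by
    by_contra hcon
    push Not at hcon
    have h1 : (n : ℝ) / 2 - 2 ≤ K := by
      have : (n : ℝ) < 2 * (K + 2) := by exact_mod_cast hcon
      linarith
    have h2 : ((n : ℝ) / 2 - 2) * (n / 2 - 3) ≤ K * (K - 1) :=
      mul_le_mul h1 (by linarith) (by linarith) (by linarith)
    nlinarith
  set a : ℕ := n / (K + 2) - 1 with ha
  have hdiv : 2 ≤ n / (K + 2) := (Nat.le_div_iff_mul_le (by omega)).mpr (by linarith)
  have ha1 : a + 1 = n / (K + 2) := by omega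
  have hNa : (K + 2) * (a + 1) ≤ n := by rw [ha1]; exact Nat.mul_div_le n (K + 2)
  have hNa2 : n ≤ (K + 2) * (a + 2) := by
    have h1 := Nat.lt_mul_div_succ n (show 0 < K + 2 by omega)
    have h2 : a + 2 = n / (K + 2) + 1 := by omega
    rw [h2]; exact h1.le
  have hKn' : K + 2 ≤ n := by omega
  refine ⟨gb n K r a, gb_connected hKn', gb_ncard hr hKn' hmK, ?_⟩
  intro T hT hTc hTm
  have hE := gb_energy hr (by omega) hNa hNa2 hmK
  have hNa2R : (n : ℝ) ≤ (K + 2) * (a + 2) := by exact_mod_cast hNa2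
  obtain ⟨hs1, hs2⟩ := sparse_cond (M := (m : ℝ) - n + 1) (c := 2 * (m : ℝ) / n) (a := a) hnR
    hK2R hr0 hrK (Nat.cast_nonneg a) hNa2R (by field_simp) rfl (by linarith) hmr hmR
  have hmn : m ≤ n ^ 2 / 2 := by
    rw [Nat.le_div_iff_mul_le (by norm_num)]
    have : (m : ℝ) * 2 ≤ (n : ℝ) ^ 2 := by linarith [Nat.cast_nonneg (α := ℝ) m]
    exact_mod_cast this
  have hb := thr_bound (by omega) hr hmK hmn (Or.inl hs1) hT hTc hTm
  have hc1 : 1 ≤ 2 * (m : ℝ) / n := by
    rw [le_div_iff₀ hn0]; linarith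
  have hmax : max 0 ((r : ℝ) + 1 - 2 * m / n) ≤ r + 1 - 2 * m / n + (2 * m / n - 1) := by
    apply max_le <;> linarith
  linarith

/-- Some connected threshold graph has the largest energy among all connected graphs with `n`
vertices and `m` edges. -/
def Exc (n m : ℕ) : Prop :=
  ∃ T : SimpleGraph (Fin n), IsThreshold T ∧ T.Connected ∧ T.edgeSet.ncard = m ∧
    ∀ G : SimpleGraph (Fin n), G.Connected → G.edgeSet.ncard = m →
      laplacianEnergy G ≤ laplacianEnergy T

/-- strictness in the dense range -/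
lemma not_exc_dense {ε : ℝ} (hε : 0 < ε) : ∃ n₀ : ℕ, ∀ n m K r : ℕ, n₀ ≤ n →
    (m : ℝ) ≤ (1 / 4 - ε) * (n : ℝ) ^ 2 → r < K → m + K + 1 = (K + 1).choose 2 + n + r →
    2 * (m : ℝ) / n ≤ r + 1 → ¬ Exc n m := by
  obtain ⟨N0, hN0⟩ := dense_main hε
  refine ⟨max N0 10, fun n m K r hn hm hr hmK hc => ?_⟩
  rintro ⟨T, hT, hTc, hTm, hTG⟩
  obtain ⟨G, hG1, hG2, hG3⟩ := hN0 n m K r ((le_max_left _ _).trans hn) hm hr hmK
  have h1 := hG3 T hT hTc hTm
  have h2 := hTG G hG1 hG2
  have hn10 : 10 ≤ n := (le_max_right _ _).trans hn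
  have hnR : (10 : ℝ) ≤ n := by exact_mod_cast hn10
  have hmr := real_decomp hmK
  have hrK : (r : ℝ) + 1 ≤ K := by exact_mod_cast hr
  have hr0 : (0 : ℝ) ≤ r := Nat.cast_nonneg r
  have hm4 : (m : ℝ) ≤ (n : ℝ) ^ 2 / 4 := by
    have : 0 < ε * (n : ℝ) ^ 2 := by positivity
    linarith
  have hKn : (K : ℝ) + 2 < n := by
    by_contra hcon
    push Not at hcon
    have h2 : ((n : ℝ) - 2) * (n - 3) ≤ K * (K - 1) :=
      mul_le_mul (by linarith) (by linarith) (by linarith) (by linarith)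
    nlinarith
  have hX : 0 < ((K : ℝ) - r) * (n - K - 2) / ((K + 1) * (n - 1)) := by
    apply div_pos
    · apply mul_pos <;> linarith
    · apply mul_pos <;> linarith
  have h3 : 0 < min (((K : ℝ) - r) * (n - K - 2) / ((K + 1) * (n - 1)))
      ((r : ℝ) + 1 - 2 * m / n + (K - r) * (n - K - 2) / ((K + 1) * (n - 1))) :=
    lt_min hX (by linarith)
  linarith

/-- strictness in the sparse range -/
lemma not_exc_sparse {n m : ℕ} (hn : 10 ^ 6 ≤ n) (hnm : n ≤ m) (hm : 4096 * m ^ 3 ≤ n ^ 4) :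
    ¬ Exc n m := by
  rintro ⟨T, hT, hTc, hTm, hTG⟩
  obtain ⟨G, hG1, hG2, hG3⟩ := sparse_main hn hnm hm
  have h1 := hG3 T hT hTc hTm
  have h2 := hTG G hG1 hG2
  have hnR : (10 : ℝ) ^ 6 ≤ n := by exact_mod_cast hn
  have hnmR : (n : ℝ) ≤ m := by exact_mod_cast hnm
  have h3 : 0 < min (Real.sqrt ((m : ℝ) - n + 1)) (n / Real.sqrt m) :=
    lt_min (Real.sqrt_pos.mpr (by linarith)) (div_pos (by linarith)
      (Real.sqrt_pos.mpr (by linarith)))
  linarith

lemma sum_blocks (n : ℝ) (hn : n ≠ 0) (M : ℕ) :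
    ∑ K ∈ Finset.range (M + 1), (((K : ℝ) ^ 2 + K) / n + 2) =
        ((M : ℝ) * (M + 1) * (2 * M + 1) / 6 + M * (M + 1) / 2) / n + 2 * (M + 1) := by
  induction M with
  | zero => simp
  | succ M ih =>
    rw [Finset.sum_range_succ, ih]
    push_cast
    field_simp
    ring

open Classical in
/-- The number of exceptional values. -/
theorem count_main : ∃ n₀ : ℕ, ∀ n x : ℕ, n₀ ≤ n → 4 * x ≤ n ^ 2 →
    (((Finset.Icc n x).filter (fun m => Exc n m)).card : ℝ) ≤
      if 4096 * x ^ 3 ≤ n ^ 4 then 0 else x * Real.sqrt x / n := by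
  obtain ⟨N0, hN0⟩ := not_exc_dense (ε := 1 / 500) (by norm_num)
  refine ⟨max N0 (10 ^ 15), fun n x hn hx => ?_⟩
  have hnN : N0 ≤ n := (le_max_left _ _).trans hn
  have hn1 : 10 ^ 15 ≤ n := (le_max_right _ _).trans hn
  have hnR : (10 : ℝ) ^ 15 ≤ n := by exact_mod_cast hn1
  have hn0 : (0 : ℝ) < n := by linarith
  have hxR : 4 * (x : ℝ) ≤ (n : ℝ) ^ 2 := by exact_mod_cast hx
  have hx0 : (0 : ℝ) ≤ x := Nat.cast_nonneg x
  rcases le_or_gt (4096 * x ^ 3) (n ^ 4) with hsp | hsp
  · -- no exceptional value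
    have h1 : (Finset.Icc n x).filter (fun m => Exc n m) = ∅ := by
      apply Finset.filter_eq_empty_iff.mpr
      intro m hm
      rw [Finset.mem_Icc] at hm
      apply not_exc_sparse (by omega) hm.1
      exact (Nat.mul_le_mul_left 4096 (Nat.pow_le_pow_left hm.2 3)).trans hsp
    rw [h1, if_pos hsp]
    simp only [Finset.card_empty, Nat.cast_zero]
    exact le_rfl
  · rw [if_neg (not_le.mpr hsp)]
    have hspR : (n : ℝ) ^ 4 < 4096 * (x : ℝ) ^ 3 := by exact_mod_cast hsp
    set s : ℝ := Real.sqrt x with hs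
    have hs2 : s ^ 2 = x := Real.sq_sqrt hx0
    have hs0 : 0 ≤ s := Real.sqrt_nonneg _
    -- s is large compared with sqrt n
    have hns : 5000 * (n : ℝ) ≤ x := by
      by_contra hcon
      push Not at hcon
      have h1 : (x : ℝ) ^ 3 ≤ (5000 * (n : ℝ)) ^ 3 := pow_le_pow_left₀ hx0 hcon.le 3
      have h2 : (n : ℝ) ^ 4 = n * (n : ℝ) ^ 3 := by ring
      have h3 : (5000 * (n : ℝ)) ^ 3 = 125000000000 * (n : ℝ) ^ 3 := by ring
      rw [h3] at h1
      rw [h2] at hspR
      have h4 : (10 : ℝ) ^ 15 * (n : ℝ) ^ 3 ≤ n * (n : ℝ) ^ 3 :=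
        mul_le_mul_of_nonneg_right hnR (by positivity)
      have h5 : 0 < (n : ℝ) ^ 3 := by positivity
      linarith
    have hs1 : 1000000 ≤ s := by
      by_contra hcon
      push Not at hcon
      have h1 : s ^ 2 < 1000000 ^ 2 := pow_lt_pow_left₀ hcon hs0 (by norm_num)
      rw [hs2] at h1
      linarith
    -- the largest block
    set M : ℕ := ⌊1.4143 * s + 1⌋₊ with hM
    have hM1 : (M : ℝ) ≤ 1.4143 * s + 1 := Nat.floor_le (by positivity)
    set D : Finset (Σ _ : ℕ, ℕ) := (Finset.range (M + 1)).sigma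
      (fun K => (Finset.range K).filter (fun r => n * r < K ^ 2 + K + n)) with hD
    set f : (Σ _ : ℕ, ℕ) → ℕ := fun x => (x.1 + 1).choose 2 + n + x.2 - x.1 - 1 with hf
    set R : Finset ℕ := Finset.Ioc ⌊(1 / 4 - 1 / 500) * (n : ℝ) ^ 2⌋₊ x with hR
    have hsub : (Finset.Icc n x).filter (fun m => Exc n m) ⊆ D.image f ∪ R := by
      intro m hm
      rw [Finset.mem_filter, Finset.mem_Icc] at hm
      obtain ⟨⟨hm1, hm2⟩, hm3⟩ := hm
      rw [Finset.mem_union]
      by_cases hmR : m ∈ R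
      · right; exact hmR
      · left
        have hm4 : (m : ℝ) ≤ (1 / 4 - 1 / 500) * (n : ℝ) ^ 2 := by
          rw [hR, Finset.mem_Ioc] at hmR
          push Not at hmR
          by_contra hcon
          push Not at hcon
          have h1 : ⌊(1 / 4 - 1 / 500) * (n : ℝ) ^ 2⌋₊ < m := by
            rw [Nat.floor_lt (by positivity)]; exact hcon
          have := hmR h1
          omega
        obtain ⟨K, r, hr, hmK⟩ := decomp (show n ≤ m + 1 by omega)
        have hmr := real_decomp hmK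
        have hrK : (r : ℝ) + 1 ≤ K := by exact_mod_cast hr
        have hr0 : (0 : ℝ) ≤ r := Nat.cast_nonneg r
        have hm1R : (n : ℝ) ≤ m := by exact_mod_cast hm1
        have hm2R : (m : ℝ) ≤ x := by exact_mod_cast hm2
        rw [Finset.mem_image]
        refine ⟨⟨K, r⟩, ?_, ?_⟩
        · rw [hD, Finset.mem_sigma, Finset.mem_filter, Finset.mem_range, Finset.mem_range]
          refine ⟨?_, hr, ?_⟩
          · have h1 : K ≤ M := by
              rw [hM]
              apply Nat.le_floor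
              by_contra hcon
              push Not at hcon
              have h2 : (1.4143 * s) ^ 2 < ((K : ℝ) - 1) ^ 2 :=
                pow_lt_pow_left₀ (by linarith) (by positivity) (by norm_num)
              have h3 : (1.4143 * s) ^ 2 = 2.00024449 * s ^ 2 := by ring
              rw [h3, hs2] at h2
              nlinarith
            simp only
            omega
          · by_contra hcon
            push Not at hcon
            have h1 : ((K : ℝ) ^ 2 + K + n) ≤ n * r := by exact_mod_cast hcon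
            apply hN0 n m K r hnN hm4 hr hmK _ hm3
            rw [div_le_iff₀ hn0]
            nlinarith
        · simp only [hf]
          omega
    have hcardR : (R.card : ℝ) ≤ 0.05 * (x * s / n) := by
      rw [hR, Nat.card_Ioc]
      rcases le_or_gt x ⌊(1 / 4 - 1 / 500) * (n : ℝ) ^ 2⌋₊ with h | h
      · rw [Nat.sub_eq_zero_of_le h]
        simp only [Nat.cast_zero]
        positivity
      · rw [Nat.cast_sub h.le]
        have h1 := Nat.lt_floor_add_one ((1 / 4 - 1 / 500) * (n : ℝ) ^ 2)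
        have h2 : (1 / 4 - 1 / 500) * (n : ℝ) ^ 2 < x := by
          rwa [Nat.floor_lt (by positivity)] at h
        have hsn : 0.49 * (n : ℝ) ≤ s := by
          by_contra hcon
          push Not at hcon
          have h3 : s ^ 2 < (0.49 * (n : ℝ)) ^ 2 := pow_lt_pow_left₀ hcon hs0 (by norm_num)
          rw [hs2] at h3
          nlinarith [sq_nonneg (n : ℝ)]
        have h4 : 0.49 * (x : ℝ) ≤ x * s / n := by
          rw [le_div_iff₀ hn0]; nlinarith
        have hn2 : (10 : ℝ) ^ 15 * n ≤ (n : ℝ) ^ 2 := by nlinarith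
        linarith
    have hblock : ∀ K : ℕ, (((Finset.range K).filter (fun r => n * r < K ^ 2 + K + n)).card : ℝ)
        ≤ ((K : ℝ) ^ 2 + K) / n + 2 := by
      intro K
      have h1 : (Finset.range K).filter (fun r => n * r < K ^ 2 + K + n) ⊆
          Finset.range ((K ^ 2 + K + n) / n + 1) := by
        intro r hr
        rw [Finset.mem_filter] at hr
        rw [Finset.mem_range, Nat.lt_succ_iff, Nat.le_div_iff_mul_le (by omega)]
        linarith [hr.2, mul_comm n r]
      have h2 := Finset.card_le_card h1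
      rw [Finset.card_range] at h2
      have h3 : (((Finset.range K).filter (fun r => n * r < K ^ 2 + K + n)).card : ℝ) ≤
          (((K ^ 2 + K + n) / n + 1 : ℕ) : ℝ) := by exact_mod_cast h2
      have h5 : (((K ^ 2 + K + n) / n : ℕ) : ℝ) ≤ ((K ^ 2 + K + n : ℕ) : ℝ) / n :=
        Nat.cast_div_le
      push_cast at h5 h3
      have h6 : ((K : ℝ) ^ 2 + K + n) / n = ((K : ℝ) ^ 2 + K) / n + 1 := by field_simp
      rw [h6] at h5
      linarith
    have hcardD : ((D.image f).card : ℝ) ≤ 0.95 * (x * s / n) := by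
      have h0 : ((D.image f).card : ℝ) ≤ (D.card : ℝ) := by exact_mod_cast Finset.card_image_le
      have h1 : (D.card : ℝ) = ∑ K ∈ Finset.range (M + 1),
          (((Finset.range K).filter (fun r => n * r < K ^ 2 + K + n)).card : ℝ) := by
        rw [hD, Finset.card_sigma]; push_cast; rfl
      have h2 : (D.card : ℝ) ≤ ∑ K ∈ Finset.range (M + 1), (((K : ℝ) ^ 2 + K) / n + 2) := by
        rw [h1]; exact Finset.sum_le_sum fun K _ => hblock K
      rw [sum_blocks n hn0.ne'] at h2
      have hM0 : (0 : ℝ) ≤ M := Nat.cast_nonneg M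
      have hM2 : (M : ℝ) + 1 ≤ 1.4144 * s := by linarith
      have hM3 : (M : ℝ) ≤ 1.4144 * s := by linarith
      have a1 : (M : ℝ) * (M + 1) ≤ 1.4144 * s * (1.4144 * s) :=
        mul_le_mul hM3 hM2 (by linarith) (by linarith)
      have a2 : (M : ℝ) * (M + 1) * (2 * M + 1) ≤
          1.4144 * s * (1.4144 * s) * (2 * (1.4144 * s)) :=
        mul_le_mul a1 (by linarith) (by linarith) (by positivity)
      have a3 : (M : ℝ) * (M + 1) * (2 * M + 1) / 6 + M * (M + 1) / 2 ≤ 0.9441 * (x * s) := by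
        have e1 : 1.4144 * s * (1.4144 * s) * (2 * (1.4144 * s)) =
            5.659091795968 * (s ^ 2 * s) := by ring
        have e2 : 1.4144 * s * (1.4144 * s) = 2.00052736 * s ^ 2 := by ring
        rw [e1, hs2] at a2
        rw [e2, hs2] at a1
        have e3 : (x : ℝ) * 1000000 ≤ x * s := mul_le_mul_of_nonneg_left hs1 hx0
        linarith
      have a4 : ((M : ℝ) * (M + 1) * (2 * M + 1) / 6 + M * (M + 1) / 2) / n ≤
          0.9441 * (x * s / n) := by
        rw [← mul_div_assoc]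
        exact div_le_div_of_nonneg_right a3 hn0.le
      have a5 : 5000 * s ≤ x * s / n := by
        rw [le_div_iff₀ hn0]; nlinarith
      linarith
    have hcard := Finset.card_le_card hsub
    have hun := Finset.card_union_le (D.image f) R
    have h1 : (((Finset.Icc n x).filter (fun m => Exc n m)).card : ℝ) ≤
        ((D.image f).card : ℝ) + (R.card : ℝ) := by exact_mod_cast hcard.trans hun
    linarith

end Pool.Agent.Helper87.NT
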