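import Pool.Agent.Helper53.LE.Energy2

/-!
MP_f5811f_co: upper bounds for sums of Laplacian eigenvalues of threshold graphs.
-/

namespace Pool.Agent.Helper87.NT

open Matrix Finset Pool.Agent.Helper53.LE

variable {V : Type*} [Fintype V] [DecidableEq V]

/-- splitting off a unit vector of the range so that the rest kills a given vector -/
lemma exists_split {P : Matrix V V ℝ} (hP : IsProj P) (hne : P ≠ 0) (w : V → ℝ) :
    ∃ u : V → ℝ, (∑ i, u i * u i = 1) ∧ (∀ i, ∑ j, P i j * u j = u i) ∧
      (∀ i, ∑ j, (P i j - u i * u j) * w j = 0) := by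
  classical
  -- general construction from a nonzero vector of the range
  have gen : ∀ x : V → ℝ, (∀ i, ∑ j, P i j * x j = x i) → x ≠ 0 →
      (∀ i, ∑ j, P i j * w j = (∑ j, x j * w j) / (∑ j, x j * x j) * x i) →
      ∃ u : V → ℝ, (∑ i, u i * u i = 1) ∧ (∀ i, ∑ j, P i j * u j = u i) ∧
      (∀ i, ∑ j, (P i j - u i * u j) * w j = 0) := by
    intro x hx hx0 hxw
    have hS : 0 < ∑ j, x j * x j := by
      have h0 : 0 ≤ ∑ j, x j * x j := Finset.sum_nonneg fun _ _ => mul_self_nonneg _
      rcases h0.lt_or_eq with h | h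
      · exact h
      · exfalso
        apply hx0
        have h1 := (Finset.sum_eq_zero_iff_of_nonneg (fun _ _ => mul_self_nonneg _)).mp h.symm
        ext i
        exact mul_self_eq_zero.mp (h1 i (Finset.mem_univ i))
    set S := ∑ j, x j * x j with hSdef
    have hsq : Real.sqrt S * Real.sqrt S = S := Real.mul_self_sqrt hS.le
    have hs0 : 0 < Real.sqrt S := Real.sqrt_pos.mpr hS
    refine ⟨fun i => x i / Real.sqrt S, ?_, ?_, ?_⟩
    · have : ∀ i, x i / Real.sqrt S * (x i / Real.sqrt S) = x i * x i / S := by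
        intro i
        rw [div_mul_div_comm, hsq]
      simp only [this]
      rw [← Finset.sum_div, ← hSdef, div_self hS.ne']
    · intro i
      have : ∀ j, P i j * (x j / Real.sqrt S) = P i j * x j / Real.sqrt S := by
        intro j; ring
      simp only [this]
      rw [← Finset.sum_div, hx i]
    · intro i
      have : ∀ j, (P i j - x i / Real.sqrt S * (x j / Real.sqrt S)) * w j =
          P i j * w j - x i / S * (x j * w j) := by
        intro j
        rw [div_mul_div_comm, hsq]; ring
      simp only [this]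
      rw [Finset.sum_sub_distrib, ← Finset.mul_sum, hxw i]
      ring
  by_cases hw : ∀ i, ∑ j, P i j * w j = 0
  · -- take a nonzero column
    obtain ⟨i0, j0, hij⟩ : ∃ i j, P i j ≠ 0 := by
      by_contra hcon
      push Not at hcon
      exact hne (by ext i j; exact hcon i j)
    have hcol : ∀ i, ∑ j, P i j * P j j0 = P i j0 := by
      intro i
      have := congrFun (congrFun hP.idem i) j0
      rwa [Matrix.mul_apply] at this
    apply gen (fun i => P i j0) hcol
    · intro h0; exact hij (congrFun h0 i0)
    · intro i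
      have h1 : ∑ j, P j j0 * w j = 0 := by
        have := hw j0
        rw [← this]
        exact Finset.sum_congr rfl fun j _ => by rw [hP.apply_symm j0 j]
      rw [hw i, h1]; simp
  · push Not at hw
    obtain ⟨i0, hi0⟩ := hw
    have hPP : ∀ i, ∑ j, P i j * (∑ l, P j l * w l) = ∑ l, P i l * w l := by
      intro i
      have h1 : ∀ j, P i j * (∑ l, P j l * w l) = ∑ l, P i j * P j l * w l := by
        intro j; rw [Finset.mul_sum]; exact Finset.sum_congr rfl fun l _ => by ring
      simp only [h1]
      rw [Finset.sum_comm]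
      refine Finset.sum_congr rfl fun l _ => ?_
      rw [← Finset.sum_mul]
      have := congrFun (congrFun hP.idem i) l
      rw [Matrix.mul_apply] at this
      rw [this]
    apply gen (fun i => ∑ l, P i l * w l) hPP
    · intro h0; exact hi0 (congrFun h0 i0)
    · intro i
      -- ⟨Pw, w⟩ = ⟨Pw, Pw⟩
      have hkey : ∑ j, (∑ l, P j l * w l) * w j = ∑ j, (∑ l, P j l * w l) * (∑ l, P j l * w l) := by
        have h1 : ∀ j, (∑ l, P j l * w l) * (∑ l, P j l * w l) =
            ∑ l, w l * (P l j * (∑ l, P j l * w l)) := by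
          intro j
          rw [Finset.sum_mul]
          refine Finset.sum_congr rfl fun l _ => ?_
          rw [hP.apply_symm l j]; ring
        simp only [h1]
        rw [Finset.sum_comm]
        refine Finset.sum_congr rfl fun l _ => ?_
        rw [← Finset.mul_sum, hPP l]; ring
      rw [hkey]
      have hpos : ∑ j, (∑ l, P j l * w l) * (∑ l, P j l * w l) ≠ 0 := by
        intro h
        have h1 := (Finset.sum_eq_zero_iff_of_nonneg (fun _ _ => mul_self_nonneg _)).mp h
        exact hi0 (mul_self_eq_zero.mp (h1 i0 (Finset.mem_univ i0)))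
      rw [div_self hpos, one_mul]

/-- subtracting a unit vector of the range -/
lemma sub_unit_proj {P : Matrix V V ℝ} (hP : IsProj P) {u : V → ℝ} (hu : ∑ i, u i * u i = 1)
    (hPu : ∀ i, ∑ j, P i j * u j = u i) : IsProj (P - of fun i j => u i * u j) := by
  have := pr2_proj hP (q := 1) one_ne_zero hu hPu
  unfold pr2 at this
  simpa using this

lemma proj_trace_nonneg {P : Matrix V V ℝ} (hP : IsProj P) : 0 ≤ P.trace := by
  rw [Matrix.trace]; exact Finset.sum_nonneg fun i _ => hP.diag_nonneg i

lemma proj_zero_of_trace {P : Matrix V V ℝ} (hP : IsProj P) (h : P.trace = 0) : P = 0 := by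
  have h1 : ∀ i, P i i = 0 := by
    intro i
    rw [Matrix.trace] at h
    exact (Finset.sum_eq_zero_iff_of_nonneg (fun i _ => hP.diag_nonneg i)).mp h i
      (Finset.mem_univ i)
  ext i j
  have h2 := hP.sum_sq i
  rw [h1 i] at h2
  have h3 := (Finset.sum_eq_zero_iff_of_nonneg (fun _ _ => sq_nonneg _)).mp h2 j
    (Finset.mem_univ j)
  exact pow_eq_zero_iff (two_ne_zero) |>.mp h3

lemma sum_sq_diff_le (S : Finset V) (u : V → ℝ) :
    ∑ i ∈ S, ∑ j ∈ S, (u i - u j) ^ 2 ≤ 2 * (S.card : ℝ) * ∑ i, u i * u i := by
  have h1 : ∑ i ∈ S, ∑ j ∈ S, (u i - u j) ^ 2 =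
      2 * (S.card : ℝ) * ∑ i ∈ S, u i * u i - 2 * (∑ i ∈ S, u i) ^ 2 := by
    have : ∀ i, ∑ j ∈ S, (u i - u j) ^ 2 =
        (S.card : ℝ) * (u i * u i) + ∑ j ∈ S, u j * u j - 2 * (u i * ∑ j ∈ S, u j) := by
      intro i
      have h2 : ∀ j, (u i - u j) ^ 2 = u i * u i + u j * u j - 2 * (u i * u j) := by
        intro j; ring
      simp only [h2, Finset.sum_sub_distrib, Finset.sum_add_distrib, Finset.sum_const,
        nsmul_eq_mul, ← Finset.mul_sum]
    simp only [this, Finset.sum_sub_distrib, Finset.sum_add_distrib, Finset.sum_const,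
      nsmul_eq_mul, ← Finset.mul_sum, ← Finset.sum_mul]
    ring
  rw [h1]
  have h2 : ∑ i ∈ S, u i * u i ≤ ∑ i, u i * u i :=
    Finset.sum_le_sum_of_subset_of_nonneg (Finset.subset_univ S)
      fun i _ _ => mul_self_nonneg (u i)
  have h3 : 2 * (S.card : ℝ) * ∑ i ∈ S, u i * u i ≤ 2 * (S.card : ℝ) * ∑ i, u i * u i :=
    mul_le_mul_of_nonneg_left h2 (by positivity)
  linarith [sq_nonneg (∑ i ∈ S, u i)]

lemma wt_split {P : Matrix V V ℝ} (u : V → ℝ) (i j : V) :
    wt P i j = wt (P - of fun i j => u i * u j) i j + (u i - u j) ^ 2 := by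
  unfold wt
  simp only [Matrix.sub_apply, of_apply]
  ring

/-- one dominating vertex added to the set `S` -/
lemma add_dominating {A B P : Matrix V V ℝ} (hA : IsGr A) (hB : IsGr B) (hP : IsProj P)
    {S : Finset V} {v : V} (hv : v ∉ S)
    (hBA : ∀ i j, B i j = A i j + if (i = v ∧ j ∈ S) ∨ (j = v ∧ i ∈ S) then 1 else 0)
    (hBS : ∀ i j, B i j ≠ 0 → i ∈ insert v S ∧ j ∈ insert v S)
    {k : ℕ} (hk : P.trace = k)
    (ih : ∀ (Q : Matrix V V ℝ) (l : ℕ), IsProj Q → Q.trace = l →
      (lap A * Q).trace ≤ (∑ i, ∑ j, A i j) / 2 + (l : ℝ) * (l + 1) / 2) :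
    (lap B * P).trace ≤ (∑ i, ∑ j, B i j) / 2 + (k : ℝ) * (k + 1) / 2 := by
  classical
  by_cases hP0 : P = 0
  · subst hP0
    rw [mul_zero, Matrix.trace_zero]
    have h1 : 0 ≤ ∑ i, ∑ j, B i j :=
      Finset.sum_nonneg fun i _ => Finset.sum_nonneg fun j _ => hB.nonneg i j
    positivity
  -- k ≥ 1
  obtain ⟨l, rfl⟩ : ∃ l, k = l + 1 := by
    rcases Nat.eq_zero_or_pos k with h | h
    · subst h
      exact absurd (proj_zero_of_trace hP (by rw [hk]; simp)) hP0
    · exact ⟨k - 1, by omega⟩
  set w : V → ℝ := fun i => if i = v then (S.card : ℝ) else if i ∈ S then -1 else 0 with hw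
  obtain ⟨u, hu1, hu2, hu3⟩ := exists_split hP hP0 w
  have hQ := sub_unit_proj hP hu1 hu2
  set Q : Matrix V V ℝ := P - of fun i j => u i * u j with hQd
  have hQtr : Q.trace = l := by
    have h1 : (of fun i j => u i * u j : Matrix V V ℝ).trace = 1 := by
      rw [Matrix.trace]; exact hu1
    rw [hQd, trace_sub, hk, h1]; push_cast; ring
  have hih := ih Q l hQ hQtr
  -- row v of Q w = 0
  have hrow : (S.card : ℝ) * Q v v = ∑ j ∈ S, Q v j := by
    have h1 := hu3 v
    have h2 : ∀ j, (P v j - u v * u j) * w j =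
        (if j = v then (S.card : ℝ) * Q v v else 0) - (if j ∈ S then Q v j else 0) := by
      intro j
      have hQj : Q v j = P v j - u v * u j := by rw [hQd]; rfl
      rw [← hQj, hw]
      by_cases hjv : j = v
      · subst hjv
        simp only [if_true, if_neg hv]; ring
      · simp only [if_neg hjv]
        split_ifs <;> ring
    simp only [h2, Finset.sum_sub_distrib] at h1
    rw [Finset.sum_ite_eq' Finset.univ v, if_pos (Finset.mem_univ v),
      ← Finset.sum_filter, Finset.filter_mem_eq_inter, Finset.univ_inter] at h1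
    linarith
  -- the star part
  have hstar : ∑ i, ∑ j, (if (i = v ∧ j ∈ S) ∨ (j = v ∧ i ∈ S) then (1:ℝ) else 0) * wt Q i j ≤
      2 * (l : ℝ) := by
    have h1 : ∀ i j, (if (i = v ∧ j ∈ S) ∨ (j = v ∧ i ∈ S) then (1:ℝ) else 0) * wt Q i j =
        (if i = v then (if j ∈ S then wt Q v j else 0) else 0) +
        (if j = v then (if i ∈ S then wt Q v i else 0) else 0) := by
      intro i j
      have hsym : ∀ a b, wt Q a b = wt Q b a := by
        intro a b; unfold wt; rw [hQ.apply_symm a b]; ring
      by_cases hi : i = v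
      · by_cases hj : j = v
        · subst hi; subst hj; simp [hv]
        · subst hi
          by_cases hjS : j ∈ S <;> simp [hj, hjS]
      · by_cases hj : j = v
        · subst hj
          by_cases hiS : i ∈ S <;> simp [hi, hiS, hsym i j]
        · simp [hi, hj]
    simp only [h1, Finset.sum_add_distrib]
    have h2 : ∑ i, ∑ j, (if i = v then (if j ∈ S then wt Q v j else 0) else 0) =
        ∑ j ∈ S, wt Q v j := by
      rw [Finset.sum_eq_single v]
      · simp only [if_true]
        rw [← Finset.sum_filter, Finset.filter_mem_eq_inter, Finset.univ_inter]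
      · intro i _ hi; simp [hi]
      · simp
    have h3 : ∑ i, ∑ j, (if j = v then (if i ∈ S then wt Q v i else 0) else 0) =
        ∑ j ∈ S, wt Q v j := by
      rw [Finset.sum_comm, Finset.sum_eq_single v]
      · simp only [if_true]
        rw [← Finset.sum_filter, Finset.filter_mem_eq_inter, Finset.univ_inter]
      · intro i _ hi; simp [hi]
      · simp
    rw [h2, h3]
    have h4 : ∑ j ∈ S, wt Q v j = ∑ j ∈ S, Q j j - (S.card : ℝ) * Q v v := by
      have : ∀ j, wt Q v j = Q v v + Q j j - 2 * Q v j := fun j => rfl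
      simp only [this, Finset.sum_sub_distrib, Finset.sum_add_distrib, Finset.sum_const,
        nsmul_eq_mul, ← Finset.mul_sum]
      rw [← hrow]; ring
    have h5 : ∑ j ∈ S, Q j j ≤ Q.trace := by
      rw [Matrix.trace]
      exact Finset.sum_le_sum_of_subset_of_nonneg (Finset.subset_univ S)
        fun i _ _ => hQ.diag_nonneg i
    have h6 : 0 ≤ (S.card : ℝ) * Q v v := mul_nonneg (by positivity) (hQ.diag_nonneg v)
    rw [hQtr] at h5
    linarith
  -- the unit vector part
  have hunit : ∑ i, ∑ j, B i j * (u i - u j) ^ 2 ≤ 2 * ((S.card : ℝ) + 1) := by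
    have h1 : ∑ i, ∑ j, B i j * (u i - u j) ^ 2 ≤
        ∑ i ∈ insert v S, ∑ j ∈ insert v S, (u i - u j) ^ 2 := by
      have h2 : ∀ i j, B i j * (u i - u j) ^ 2 ≤
          if i ∈ insert v S then (if j ∈ insert v S then (u i - u j) ^ 2 else 0) else 0 := by
        intro i j
        by_cases h0 : B i j = 0
        · rw [h0, zero_mul]; split_ifs <;> positivity
        · obtain ⟨ha, hb⟩ := hBS i j h0
          rw [if_pos ha, if_pos hb]
          have := hB.le_one i j
          nlinarith [sq_nonneg (u i - u j)]
      calc ∑ i, ∑ j, B i j * (u i - u j) ^ 2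
          ≤ ∑ i, ∑ j, (if i ∈ insert v S then
              (if j ∈ insert v S then (u i - u j) ^ 2 else 0) else 0) :=
            Finset.sum_le_sum fun i _ => Finset.sum_le_sum fun j _ => h2 i j
        _ = ∑ i, (if i ∈ insert v S then
              (∑ j, if j ∈ insert v S then (u i - u j) ^ 2 else 0) else 0) := by
            refine Finset.sum_congr rfl fun i _ => ?_
            split_ifs <;> simp
        _ = _ := by
            rw [← Finset.sum_filter, Finset.filter_mem_eq_inter, Finset.univ_inter]
            refine Finset.sum_congr rfl fun i _ => ?_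
            rw [← Finset.sum_filter, Finset.filter_mem_eq_inter, Finset.univ_inter]
    have h2 := sum_sq_diff_le (insert v S) u
    rw [hu1, Finset.card_insert_of_notMem hv] at h2
    push_cast at h2
    linarith
  have hBsum : ∑ i, ∑ j, B i j = ∑ i, ∑ j, A i j + 2 * (S.card : ℝ) := by
    simp only [hBA, Finset.sum_add_distrib]
    congr 1
    have h1 : ∀ i j, (if (i = v ∧ j ∈ S) ∨ (j = v ∧ i ∈ S) then (1:ℝ) else 0) =
        (if i = v then (if j ∈ S then 1 else 0) else 0) +
        (if j = v then (if i ∈ S then 1 else 0) else 0) := by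
      intro i j
      by_cases hi : i = v
      · by_cases hj : j = v
        · subst hi; subst hj; simp [hv]
        · subst hi
          by_cases hjS : j ∈ S <;> simp [hj, hjS]
      · by_cases hj : j = v
        · subst hj
          by_cases hiS : i ∈ S <;> simp [hi, hiS]
        · simp [hi, hj]
    simp only [h1, Finset.sum_add_distrib]
    have h2 : ∑ i, ∑ j, (if i = v then (if j ∈ S then (1:ℝ) else 0) else 0) = S.card := by
      rw [Finset.sum_eq_single v]
      · simp
      · intro i _ hi; simp [hi]
      · simp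
    have h3 : ∑ i, ∑ j, (if j = v then (if i ∈ S then (1:ℝ) else 0) else 0) = S.card := by
      rw [Finset.sum_comm, Finset.sum_eq_single v]
      · simp
      · intro i _ hi; simp [hi]
      · simp
    rw [h2, h3]; ring
  have e1 := trace_lap_mul' hB hP
  have e2 := trace_lap_mul' hA hQ
  have e3 : ∑ i, ∑ j, B i j * wt P i j =
      ∑ i, ∑ j, A i j * wt Q i j +
      ∑ i, ∑ j, (if (i = v ∧ j ∈ S) ∨ (j = v ∧ i ∈ S) then (1:ℝ) else 0) * wt Q i j +
      ∑ i, ∑ j, B i j * (u i - u j) ^ 2 := by
    rw [← Finset.sum_add_distrib, ← Finset.sum_add_distrib]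
    refine Finset.sum_congr rfl fun i _ => ?_
    rw [← Finset.sum_add_distrib, ← Finset.sum_add_distrib]
    refine Finset.sum_congr rfl fun j _ => ?_
    rw [wt_split u i j, mul_add, ← hQd]
    congr 1
    rw [hBA i j]; ring
  rw [e3] at e1
  rw [hBsum]
  push_cast
  nlinarith

/-- the graph on the vertices that arrive before time `s` -/
noncomputable def As (τ : V → ℕ) (b : ℕ → Prop) (s : ℕ) : Matrix V V ℝ :=
  haveI : DecidablePred b := Classical.decPred _
  of fun i j => if i ≠ j ∧ b (max (τ i) (τ j)) ∧ τ i < s ∧ τ j < s then 1 else 0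

lemma As_isGr (τ : V → ℕ) (b : ℕ → Prop) (s : ℕ) : IsGr (As τ b s) := by
  classical
  refine ⟨?_, ?_, ?_⟩
  · intro i j
    simp only [As, of_apply]
    rw [max_comm]
    by_cases h : i = j
    · subst h; rfl
    · congr 1
      apply propext
      constructor
      · rintro ⟨-, h2, h3, h4⟩; exact ⟨Ne.symm h, h2, h4, h3⟩
      · rintro ⟨-, h2, h3, h4⟩; exact ⟨h, h2, h4, h3⟩
  · intro i; simp [As]
  · intro i j
    simp only [As, of_apply]
    split_ifs <;> simp

theorem thr_upper (τ : V → ℕ) (hτ : Function.Injective τ) (b : ℕ → Prop) (s : ℕ) :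
    ∀ (P : Matrix V V ℝ) (k : ℕ), IsProj P → P.trace = k →
      (lap (As τ b s) * P).trace ≤ (∑ i, ∑ j, As τ b s i j) / 2 + (k : ℝ) * (k + 1) / 2 := by
  classical
  induction s with
  | zero =>
    intro P k hP hk
    have h0 : As τ b 0 = (0 : Matrix V V ℝ) := by
      ext i j; simp [As]
    have h1 := trace_lap_mul' (As_isGr τ b 0) hP
    rw [h0] at h1 ⊢
    simp only [Matrix.zero_apply, zero_mul, Finset.sum_const_zero, zero_div, zero_add] at h1 ⊢
    have : 0 ≤ (k : ℝ) * (k + 1) / 2 := by positivity
    linarith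
  | succ s ih =>
    intro P k hP hk
    by_cases hv : ∃ v, τ v = s ∧ b s
    · obtain ⟨v, hvs, hbs⟩ := hv
      set S : Finset V := univ.filter (fun i => τ i < s) with hS
      have hvS : v ∉ S := by simp [hS, hvs]
      refine add_dominating (As_isGr τ b s) (As_isGr τ b (s + 1)) hP hvS ?_ ?_ hk
        (fun Q l hQ hl => ih Q l hQ hl)
      · intro i j
        have hi : ∀ i, τ i = s → i = v := fun i h => hτ (by rw [h, hvs])
        simp only [As, of_apply, hS, Finset.mem_filter, Finset.mem_univ, true_and]
        by_cases hiv : i = v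
        · subst hiv
          by_cases hjv : j = i
          · subst hjv; simp [hvs]
          · have hne : τ j ≠ s := fun h => hjv (hi j h)
            by_cases hj : τ j < s
            · have hmax : max (τ i) (τ j) = s := by rw [hvs]; exact max_eq_left hj.le
              have h1 : (i ≠ j ∧ b (max (τ i) (τ j)) ∧ τ i < s + 1 ∧ τ j < s + 1) :=
                ⟨Ne.symm hjv, by rw [hmax]; exact hbs, by omega, by omega⟩
              have h2 : ¬ (i ≠ j ∧ b (max (τ i) (τ j)) ∧ τ i < s ∧ τ j < s) := by
                rintro ⟨-, -, h3, -⟩; omega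
              rw [if_pos h1, if_neg h2, if_pos (Or.inl ⟨rfl, hj⟩)]; ring
            · have h1 : ¬ (i ≠ j ∧ b (max (τ i) (τ j)) ∧ τ i < s + 1 ∧ τ j < s + 1) := by
                rintro ⟨-, -, -, h3⟩; omega
              have h2 : ¬ (i ≠ j ∧ b (max (τ i) (τ j)) ∧ τ i < s ∧ τ j < s) := by
                rintro ⟨-, -, -, h3⟩; omega
              have h3 : ¬ ((i = i ∧ τ j < s) ∨ (j = i ∧ τ i < s)) := by
                rintro (⟨-, h⟩ | ⟨-, h⟩) <;> omega
              rw [if_neg h1, if_neg h2, if_neg h3]; ring
        · by_cases hjv : j = v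
          · subst hjv
            have hne : τ i ≠ s := fun h => hiv (hi i h)
            by_cases hj : τ i < s
            · have hmax : max (τ i) (τ j) = s := by rw [hvs]; exact max_eq_right hj.le
              have h1 : (i ≠ j ∧ b (max (τ i) (τ j)) ∧ τ i < s + 1 ∧ τ j < s + 1) :=
                ⟨hiv, by rw [hmax]; exact hbs, by omega, by omega⟩
              have h2 : ¬ (i ≠ j ∧ b (max (τ i) (τ j)) ∧ τ i < s ∧ τ j < s) := by
                rintro ⟨-, -, -, h3⟩; omega
              rw [if_pos h1, if_neg h2, if_pos (Or.inr ⟨rfl, hj⟩)]; ring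
            · have h1 : ¬ (i ≠ j ∧ b (max (τ i) (τ j)) ∧ τ i < s + 1 ∧ τ j < s + 1) := by
                rintro ⟨-, -, h3, -⟩; omega
              have h2 : ¬ (i ≠ j ∧ b (max (τ i) (τ j)) ∧ τ i < s ∧ τ j < s) := by
                rintro ⟨-, -, h3, -⟩; omega
              have h3 : ¬ ((i = j ∧ τ j < s) ∨ (j = j ∧ τ i < s)) := by
                rintro (⟨-, h⟩ | ⟨-, h⟩) <;> omega
              rw [if_neg h1, if_neg h2, if_neg h3]; ring
          · have hni : τ i ≠ s := fun h => hiv (hi i h)
            have hnj : τ j ≠ s := fun h => hjv (hi j h)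
            have h3 : ¬ ((i = v ∧ τ j < s) ∨ (j = v ∧ τ i < s)) := by
              rintro (⟨h, -⟩ | ⟨h, -⟩)
              · exact hiv h
              · exact hjv h
            rw [if_neg h3, add_zero]
            congr 1
            apply propext
            constructor
            · rintro ⟨h1, h2, h4, h5⟩; exact ⟨h1, h2, by omega, by omega⟩
            · rintro ⟨h1, h2, h4, h5⟩; exact ⟨h1, h2, by omega, by omega⟩
      · intro i j hij
        simp only [As, of_apply] at hij
        have h1 : i ≠ j ∧ b (max (τ i) (τ j)) ∧ τ i < s + 1 ∧ τ j < s + 1 := by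
          by_contra h; exact hij (if_neg h)
        obtain ⟨-, -, h2, h3⟩ := h1
        have hmem : ∀ i, τ i < s + 1 → i ∈ insert v S := by
          intro i hi
          rw [Finset.mem_insert, hS, Finset.mem_filter]
          rcases Nat.lt_or_eq_of_le (Nat.lt_succ_iff.mp hi) with h | h
          · right; exact ⟨Finset.mem_univ i, h⟩
          · left; exact hτ (by rw [h, hvs])
        exact ⟨hmem i h2, hmem j h3⟩
    · have hEq : As τ b (s + 1) = As τ b s := by
        ext i j
        simp only [As, of_apply]
        congr 1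
        apply propext
        constructor
        · rintro ⟨h1, h2, h3, h4⟩
          refine ⟨h1, h2, ?_, ?_⟩
          · rcases Nat.lt_or_eq_of_le (Nat.lt_succ_iff.mp h3) with h | h
            · exact h
            · exfalso
              apply hv
              refine ⟨i, h, ?_⟩
              have : max (τ i) (τ j) = s := by rw [h]; exact max_eq_left (by omega)
              rwa [this] at h2
          · rcases Nat.lt_or_eq_of_le (Nat.lt_succ_iff.mp h4) with h | h
            · exact h
            · exfalso
              apply hv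
              refine ⟨j, h, ?_⟩
              have : max (τ i) (τ j) = s := by rw [h]; exact max_eq_right (by omega)
              rwa [this] at h2
        · rintro ⟨h1, h2, h3, h4⟩; exact ⟨h1, h2, by omega, by omega⟩
      rw [hEq]
      exact ih P k hP hk

end Pool.Agent.Helper87.NT
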