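import Pool.Agent.Helper87.NT.Thr

/-!
MP_f5811f_co: the energy of a connected threshold graph.
-/

namespace Pool.Agent.Helper87.NT

open Matrix Finset Pool.Agent.Helper53.LE

variable {V : Type*} [Fintype V] [DecidableEq V]

/-- the trivial bound -/
lemma triv_upper {A P : Matrix V V ℝ} (hA : IsGr A) (hP : IsProj P) (hPJ : P * JJ V = 0) :
    (lap A * P).trace ≤ (Fintype.card V : ℝ) * P.trace := by
  have h1 := trace_lap_mul' hA hP
  have h2 : ∑ i, ∑ j, A i j * wt P i j ≤ ∑ i, ∑ j, wt P i j :=
    Finset.sum_le_sum fun i _ => Finset.sum_le_sum fun j _ => by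
      have := wt_nonneg hP i j
      have := hA.le_one i j
      have := hA.nonneg i j
      nlinarith
  have hrow : ∀ i, ∑ j, P i j = 0 := by
    intro i
    by_cases hV : Nonempty V
    · obtain ⟨v⟩ := hV
      have := congrFun (congrFun hPJ i) v
      simpa [Matrix.mul_apply, JJ] using this
    · exact absurd ⟨i⟩ hV
  have h3 : ∑ i, ∑ j, wt P i j = 2 * (Fintype.card V : ℝ) * P.trace := by
    have h4 : ∀ i, ∑ j, wt P i j = (Fintype.card V : ℝ) * P i i + P.trace := by
      intro i
      unfold wt
      simp only [Finset.sum_sub_distrib, Finset.sum_add_distrib, Finset.sum_const,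
        Finset.card_univ, nsmul_eq_mul, ← Finset.mul_sum, hrow i]
      rw [Matrix.trace]; simp [diag_apply]
    simp only [h4, Finset.sum_add_distrib, ← Finset.mul_sum, Finset.sum_const, Finset.card_univ,
      nsmul_eq_mul]
    rw [Matrix.trace]; simp only [diag_apply]; ring
  rw [h3] at h2
  linarith

/-- the bound from a dominating vertex -/
lemma dom_upper {A P : Matrix V V ℝ} (hA : IsGr A) (hP : IsProj P) (hPJ : P * JJ V = 0)
    {o : V} (ho : ∀ i, i ≠ o → A o i = 1) :
    (lap A * P).trace ≤ ∑ i, ∑ j, A i j - ((Fintype.card V : ℝ) - 1 - P.trace) := by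
  have hc0 : (Fintype.card V : ℝ) ≠ 0 := by
    have : 0 < Fintype.card V := Fintype.card_pos_iff.mpr ⟨o⟩
    exact_mod_cast this.ne'
  have hR := compl_proj hP hPJ hc0
  set c : ℝ := (Fintype.card V : ℝ) with hc
  set R : Matrix V V ℝ := 1 - (1 / c) • JJ V - P with hRd
  have hJP : JJ V * P = 0 := by
    have := congrArg transpose hPJ
    rwa [transpose_mul, hP.symm, transpose_zero] at this
  have hJJ : JJ V * JJ V = c • JJ V := by
    ext i j; simp [Matrix.mul_apply, JJ, hc]
  have hRJ : R * JJ V = 0 := by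
    rw [hRd, sub_mul, sub_mul, one_mul, smul_mul_assoc, hJJ, hPJ, smul_smul, one_div,
      inv_mul_cancel₀ hc0, one_smul, sub_self, sub_zero]
  have hrow : ∀ i, ∑ j, R i j = 0 := by
    intro i
    have := congrFun (congrFun hRJ i) o
    simpa [Matrix.mul_apply, JJ] using this
  have htJ : (JJ V).trace = c := by simp [JJ, Matrix.trace, hc]
  have hRtr : R.trace = c - 1 - P.trace := by
    rw [hRd, trace_sub, trace_sub, trace_smul, htJ, trace_one, smul_eq_mul, one_div,
      inv_mul_cancel₀ hc0]
  have hsum : (lap A * P).trace = ∑ i, ∑ j, A i j - (lap A * R).trace := by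
    rw [hRd, mul_sub, mul_sub, mul_one, mul_smul_comm, lap_mul_J hA, smul_zero, sub_zero,
      trace_sub, trace_lap hA]; ring
  rw [hsum, ← hRtr]
  have h1 := trace_lap_mul' hA hR
  have h2 : ∑ i, ∑ j, A i j * wt R i j ≥ 2 * ∑ i, (if i = o then 0 else wt R o i) := by
    have h3 : ∀ i j, (if i = o then (if j = o then 0 else wt R o j) else 0) +
        (if j = o then (if i = o then 0 else wt R o i) else 0) ≤ A i j * wt R i j := by
      intro i j
      have hw := wt_nonneg hR i j
      have hA0 := hA.nonneg i j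
      by_cases hi : i = o
      · subst hi
        by_cases hj : j = i
        · subst hj; simp only [if_true, add_zero]; exact mul_nonneg hA0 hw
        · simp only [if_true, if_neg hj, add_zero]; rw [ho j hj, one_mul]
      · by_cases hj : j = o
        · subst hj
          simp only [if_neg hi, if_true, zero_add]
          rw [hA.symm, ho i hi, one_mul]
          apply le_of_eq
          unfold wt; rw [hR.apply_symm j i]; ring
        · simp only [if_neg hi, if_neg hj, add_zero]
          exact mul_nonneg hA0 hw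
    have h4 : ∑ i, ∑ j, ((if i = o then (if j = o then 0 else wt R o j) else 0) +
        (if j = o then (if i = o then 0 else wt R o i) else 0)) =
        2 * ∑ i, (if i = o then 0 else wt R o i) := by
      simp only [Finset.sum_add_distrib]
      have e1 : ∑ i, ∑ j, (if i = o then (if j = o then 0 else wt R o j) else 0) =
          ∑ j, (if j = o then 0 else wt R o j) := by
        rw [Finset.sum_eq_single o]
        · simp
        · intro i _ hi; simp [hi]
        · simp
      have e2 : ∑ i, ∑ j, (if j = o then (if i = o then 0 else wt R o i) else 0) =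
          ∑ j, (if j = o then 0 else wt R o j) := by
        rw [Finset.sum_comm, Finset.sum_eq_single o]
        · simp
        · intro i _ hi; simp [hi]
        · simp
      rw [e1, e2]; ring
    rw [← h4]
    exact Finset.sum_le_sum fun i _ => Finset.sum_le_sum fun j _ => h3 i j
  have h5 : ∑ i, (if i = o then 0 else wt R o i) = c * R o o + R.trace := by
    have h6 : ∀ i, (if i = o then 0 else wt R o i) = wt R o i := by
      intro i
      split_ifs with h
      · subst h; unfold wt; ring
      · rfl
    simp only [h6]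
    unfold wt
    simp only [Finset.sum_sub_distrib, Finset.sum_add_distrib, Finset.sum_const,
      Finset.card_univ, nsmul_eq_mul, ← Finset.mul_sum, hrow o]
    rw [Matrix.trace]; simp only [diag_apply, ← hc]; ring
  have h7 : 0 ≤ c * R o o := mul_nonneg (by rw [hc]; positivity) (hR.diag_nonneg o)
  rw [h5] at h2
  linarith

/-- A threshold graph: the vertices arrive one after another (`σ i` is the time of arrival of
`i`), and the vertex arriving at time `t` is adjacent to all previous vertices if `b t` holds and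
to none of them otherwise. -/
def IsThreshold {n : ℕ} (G : SimpleGraph (Fin n)) : Prop :=
  ∃ (σ : Equiv.Perm (Fin n)) (b : Fin n → Prop),
    ∀ i j, G.Adj i j ↔ i ≠ j ∧ b (max (σ i) (σ j))

lemma IsThreshold.upper {n : ℕ} {G : SimpleGraph (Fin n)} (hG : IsThreshold G)
    {P : Matrix (Fin n) (Fin n) ℝ} (hP : IsProj P) {k : ℕ} (hk : P.trace = k) :
    (lap (adjR G) * P).trace ≤ (G.edgeSet.ncard : ℝ) + (k : ℝ) * (k + 1) / 2 := by
  classical
  obtain ⟨σ, b, hb⟩ := hG
  have hEq : adjR G = As (fun i : Fin n => (σ i : ℕ)) (fun t => ∃ h : t < n, b ⟨t, h⟩) n := by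
    ext i j
    rw [adjR_apply]
    simp only [As, of_apply]
    congr 1
    apply propext
    rw [hb]
    constructor
    · rintro ⟨h1, h2⟩
      refine ⟨h1, ⟨?_, ?_⟩, (σ i).2, (σ j).2⟩
      · exact max_lt (σ i).2 (σ j).2
      · have : (⟨max (σ i : ℕ) (σ j : ℕ), max_lt (σ i).2 (σ j).2⟩ : Fin n) = max (σ i) (σ j) := by
          apply Fin.ext
          change max (σ i : ℕ) (σ j : ℕ) = ((max (σ i) (σ j) : Fin n) : ℕ)
          rcases le_total (σ i) (σ j) with h | h
          · rw [max_eq_right h]; exact max_eq_right (Fin.le_def.mp h)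
          · rw [max_eq_left h]; exact max_eq_left (Fin.le_def.mp h)
        rw [this]; exact h2
    · rintro ⟨h1, ⟨h3, h2⟩, -, -⟩
      refine ⟨h1, ?_⟩
      have : (⟨max (σ i : ℕ) (σ j : ℕ), h3⟩ : Fin n) = max (σ i) (σ j) := by
        apply Fin.ext
        change max (σ i : ℕ) (σ j : ℕ) = ((max (σ i) (σ j) : Fin n) : ℕ)
        rcases le_total (σ i) (σ j) with h | h
        · rw [max_eq_right h]; exact max_eq_right (Fin.le_def.mp h)
        · rw [max_eq_left h]; exact max_eq_left (Fin.le_def.mp h)
      rwa [this] at h2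
  have h1 := thr_upper (V := Fin n) (fun i : Fin n => (σ i : ℕ))
    (fun i j h => σ.injective (Fin.ext h)) (fun t => ∃ h : t < n, b ⟨t, h⟩) n P k hP hk
  rw [← hEq, sum_adjR] at h1
  linarith

lemma IsThreshold.dominating {n : ℕ} {G : SimpleGraph (Fin n)} (hG : IsThreshold G)
    (hc : G.Connected) (hn : 2 ≤ n) : ∃ o, ∀ i, i ≠ o → adjR G o i = 1 := by
  classical
  obtain ⟨σ, b, hb⟩ := hG
  set last : Fin n := ⟨n - 1, by omega⟩ with hl
  set o := σ.symm last with ho
  have hso : σ o = last := by rw [ho, Equiv.apply_symm_apply]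
  have hmax : ∀ i, max (σ o) (σ i) = last := by
    intro i
    rw [hso, max_eq_left]
    rw [Fin.le_def, hl]
    have := (σ i).2
    simp only
    omega
  have hbl : b last := by
    -- o has a neighbour
    haveI : Nontrivial (Fin n) := Fin.nontrivial_iff_two_le.mpr hn
    obtain ⟨x, hx⟩ : ∃ x, x ≠ o := exists_ne o
    obtain ⟨y, hy⟩ := hc.preconnected.exists_adj_of_nontrivial o
    rw [hb, hmax] at hy
    exact hy.2
  refine ⟨o, fun i hi => ?_⟩
  rw [adjR_apply, if_pos]
  rw [hb, hmax]
  exact ⟨Ne.symm hi, hbl⟩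

/-- upper bound for the energy of a connected threshold graph -/
theorem IsThreshold.energy_le {n m : ℕ} {G : SimpleGraph (Fin n)} (hG : IsThreshold G)
    (hc : G.Connected) (hn : 2 ≤ n) (hm : G.edgeSet.ncard = m) (hm0 : 0 < m) {B : ℝ}
    (hB : ∀ k : ℕ, k + 1 ≤ n →
      min ((n : ℝ) * k) (min ((m : ℝ) + k * (k + 1) / 2) (2 * m - n + 1 + k)) - 2 * m / n * k ≤ B) :
    laplacianEnergy G ≤ 2 * B := by
  have hn0 : (0 : ℝ) < n := by exact_mod_cast (by omega : 0 < n)
  have hcpos : (0 : ℝ) < 2 * m / n := by positivity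
  obtain ⟨P, hP, hE, k, hk⟩ := energy_spec (by omega) G (c := 2 * (m : ℝ) / n) (by rw [hm])
  have hA := isGr_adjR G
  have hPJ := spec_mul_J hA hP hcpos
  obtain ⟨o, ho⟩ := hG.dominating hc hn
  have h1 := triv_upper hA hP.proj hPJ
  have h2 := dom_upper hA hP.proj hPJ ho
  have h3 := hG.upper hP.proj hk
  have hkn : k + 1 ≤ n := by
    have hc0 : ((Fintype.card (Fin n) : ℕ) : ℝ) ≠ 0 := by
      rw [Fintype.card_fin]; exact hn0.ne'
    have hR := compl_proj hP.proj hPJ hc0
    have h4 := proj_trace_nonneg hR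
    have htJ : (JJ (Fin n)).trace = n := by simp [JJ, Matrix.trace]
    rw [trace_sub, trace_sub, trace_smul, htJ, trace_one, smul_eq_mul, hk, Fintype.card_fin,
      one_div, inv_mul_cancel₀ hn0.ne'] at h4
    have : (k : ℝ) + 1 ≤ n := by linarith
    exact_mod_cast this
  rw [Fintype.card_fin, hk] at h1 h2
  rw [sum_adjR, hm] at h2
  rw [hm] at h3
  have h5 := hB k hkn
  have h6 : (lap (adjR G) * P).trace ≤
      min ((n : ℝ) * k) (min ((m : ℝ) + k * (k + 1) / 2) (2 * m - n + 1 + k)) := by
    refine le_min h1 (le_min h3 ?_)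
    linarith
  have h7 : ((lap (adjR G) - (2 * (m : ℝ) / n) • (1 : Matrix (Fin n) (Fin n) ℝ)) * P).trace =
      (lap (adjR G) * P).trace - 2 * m / n * k := by
    rw [sub_mul, trace_sub, smul_mul_assoc, one_mul, trace_smul, hk, smul_eq_mul]
  rw [hE, h7]
  linarith

/-- lower bound for the energy from any orthogonal projection -/
theorem energy_ge {n m : ℕ} (hn : 0 < n) {G : SimpleGraph (Fin n)} (hm : G.edgeSet.ncard = m)
    {Q : Matrix (Fin n) (Fin n) ℝ} (hQ : IsProj Q) :
    2 * ((lap (adjR G) * Q).trace - 2 * m / n * Q.trace) ≤ laplacianEnergy G := by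
  obtain ⟨P, hP, hE, -⟩ := energy_spec hn G (c := 2 * (m : ℝ) / n) (by rw [hm])
  have h1 := hP.trace_le hQ
  have h7 : ((lap (adjR G) - (2 * (m : ℝ) / n) • (1 : Matrix (Fin n) (Fin n) ℝ)) * Q).trace =
      (lap (adjR G) * Q).trace - 2 * m / n * Q.trace := by
    rw [sub_mul, trace_sub, smul_mul_assoc, one_mul, trace_smul, smul_eq_mul]
  rw [hE]
  linarith

end Pool.Agent.Helper87.NT
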